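import Pool.Agent.H45.Skew.Strip

/-!
# From a totally skew map to the stripping data
-/

set_option autoImplicit false

namespace Pool.Agent.H45.Skew

open Module

/-- The analytic core: a map of `ℝ × ℝ × ℝ` into a nine dimensional space with the symmetries of the
product of a projective line and a projective plane is never totally skew along the first factor
antipodes. -/
theorem core {E : Type} [NormedAddCommGroup E] [InnerProductSpace ℝ E]
    [FiniteDimensional ℝ E] (hE : finrank ℝ E = 9) (G : ℝ × ℝ × ℝ → E) (hG : ContDiff ℝ 2 G)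
    (h1 : ∀ t α s : ℝ, G (t + Real.pi, α, s) = G (t, α, s))
    (h2 : ∀ t α s : ℝ, G (t, α + Real.pi, -s) = G (t, α, s))
    (h3 : ∀ (t α β : ℝ) (a b : ℝ × ℝ × ℝ) (c : ℝ),
      fderiv ℝ G (t, α, 0) a + fderiv ℝ G (t + Real.pi / 2, β, 0) b
        + c • (G (t + Real.pi / 2, β, 0) - G (t, α, 0)) = 0 → a = 0 ∧ b = 0 ∧ c = 0) :
    False := by
  have hGd : Differentiable ℝ G := hG.differentiable (by norm_num)
  -- symmetries of the derivative
  have s1 : ∀ t α s : ℝ, fderiv ℝ G (t + Real.pi, α, s) = fderiv ℝ G (t, α, s) := by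
    intro t α s
    have e1 : (fun x : ℝ × ℝ × ℝ => G (x + (Real.pi, 0, 0))) = G := by
      funext x
      obtain ⟨t, α, s⟩ := x
      have := h1 t α s
      simpa using this
    have e2 := fderiv_comp_add_right (𝕜 := ℝ) (f := G) (x := (t, α, s)) (Real.pi, 0, 0)
    rw [e1] at e2
    rw [e2]
    simp
  have s2 : ∀ (t α : ℝ) (a : ℝ × ℝ × ℝ), fderiv ℝ G (t, α + Real.pi, 0) (a.1, a.2.1, -a.2.2)
      = fderiv ℝ G (t, α, 0) a := by
    intro t α a
    let L : ℝ × ℝ × ℝ →L[ℝ] ℝ × ℝ × ℝ :=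
      (ContinuousLinearMap.fst ℝ ℝ (ℝ × ℝ)).prod
        (((ContinuousLinearMap.fst ℝ ℝ ℝ).comp (ContinuousLinearMap.snd ℝ ℝ (ℝ × ℝ))).prod
          (-(ContinuousLinearMap.snd ℝ ℝ ℝ).comp (ContinuousLinearMap.snd ℝ ℝ (ℝ × ℝ))))
    have hL : ∀ x : ℝ × ℝ × ℝ, L x = (x.1, x.2.1, -x.2.2) := fun x => rfl
    have e1 : (fun x : ℝ × ℝ × ℝ => G (L x + (0, Real.pi, 0))) = G := by
      funext x
      obtain ⟨t, α, s⟩ := x
      have := h2 t α s
      rw [hL]
      simpa using this
    have e2 : HasFDerivAt (fun x : ℝ × ℝ × ℝ => G (L x + (0, Real.pi, 0)))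
        ((fderiv ℝ G (L (t, α, 0) + (0, Real.pi, 0))).comp L) (t, α, 0) := by
      have e3 : HasFDerivAt (fun x : ℝ × ℝ × ℝ => L x + (0, Real.pi, 0)) L (t, α, 0) :=
        L.hasFDerivAt.add_const _
      exact (hGd (L (t, α, 0) + (0, Real.pi, 0))).hasFDerivAt.comp (t, α, 0) e3
    rw [e1] at e2
    have e4 := e2.fderiv
    rw [e4]
    simp [hL]
  -- the fields
  let A : ℝ × ℝ × ℝ → PP → E := fun w p => fderiv ℝ G (p.1 / 2, p.2.1, 0) w
  let B : ℝ × ℝ × ℝ → PP → E := fun w p => fderiv ℝ G (p.1 / 2 + Real.pi / 2, p.2.2, 0) w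
  let D : PP → E := fun p => G (p.1 / 2 + Real.pi / 2, p.2.2, 0) - G (p.1 / 2, p.2.1, 0)
  have hfd : ContDiff ℝ 1 (fderiv ℝ G) := hG.fderiv_right (by norm_num)
  have hAC : ∀ w, ContDiff ℝ 1 (A w) := by
    intro w
    have : ContDiff ℝ 1 fun p : PP => fderiv ℝ G (p.1 / 2, p.2.1, 0) :=
      hfd.comp (by fun_prop)
    exact this.clm_apply contDiff_const
  have hBC : ∀ w, ContDiff ℝ 1 (B w) := by
    intro w
    have : ContDiff ℝ 1 fun p : PP => fderiv ℝ G (p.1 / 2 + Real.pi / 2, p.2.2, 0) :=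
      hfd.comp (by fun_prop)
    exact this.clm_apply contDiff_const
  have hDC : ContDiff ℝ 1 D := by
    have hG1 : ContDiff ℝ 1 G := hG.of_le (by norm_num)
    exact (hG1.comp (by fun_prop)).sub (hG1.comp (by fun_prop))
  have hAS : ∀ w p, A w (sS p) = B w p := by
    intro w p
    simp only [A, B, sS]
    rw [add_div]
  have hBS : ∀ w p, B w (sS p) = A w p := by
    intro w p
    simp only [A, B, sS]
    rw [show (p.1 + Real.pi) / 2 + Real.pi / 2 = p.1 / 2 + Real.pi by ring, s1]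
  have hDS : ∀ p, D (sS p) = -D p := by
    intro p
    simp only [D, sS]
    rw [show (p.1 + Real.pi) / 2 + Real.pi / 2 = p.1 / 2 + Real.pi by ring, h1, add_div]
    abel
  have hAX : ∀ (x y : ℝ) p, A (x, y, 0) (sX p) = A (x, y, 0) p := by
    intro x y p
    simp only [A, sX]
    rw [← s2 (p.1 / 2) p.2.1 (x, y, 0)]
    simp
  have hAX' : ∀ p, A (0, 0, 1) (sX p) = -A (0, 0, 1) p := by
    intro p
    simp only [A, sX]
    rw [← s2 (p.1 / 2) p.2.1 (0, 0, 1), ← map_neg]
    simp
  have hAY : ∀ w p, A w (sY p) = A w p := fun w p => rfl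
  have hBX : ∀ w p, B w (sX p) = B w p := fun w p => rfl
  have hBY : ∀ (x y : ℝ) p, B (x, y, 0) (sY p) = B (x, y, 0) p := by
    intro x y p
    simp only [B, sY]
    rw [← s2 (p.1 / 2 + Real.pi / 2) p.2.2 (x, y, 0)]
    simp
  have g2 : ∀ t α : ℝ, G (t, α + Real.pi, 0) = G (t, α, 0) := by
    intro t α
    have := h2 t α 0
    simpa using this
  have hDX : ∀ p, D (sX p) = D p := by
    intro p
    simp only [D, sX, g2]
  have hDY : ∀ p, D (sY p) = D p := by
    intro p
    simp only [D, sY, g2]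
  have hlin : ∀ (p : PP) (a b : ℝ × ℝ × ℝ) (c : ℝ),
      a.1 • A (1, 0, 0) p + a.2.1 • A (0, 1, 0) p + a.2.2 • A (0, 0, 1) p
        + (b.1 • B (1, 0, 0) p + b.2.1 • B (0, 1, 0) p + b.2.2 • B (0, 0, 1) p)
        + c • D p = 0 → a = 0 ∧ b = 0 ∧ c = 0 := by
    intro p a b c h0
    apply h3 (p.1 / 2) p.2.1 p.2.2 a b c
    rw [← h0]
    have ea : a = a.1 • ((1, 0, 0) : ℝ × ℝ × ℝ) + a.2.1 • ((0, 1, 0) : ℝ × ℝ × ℝ)
        + a.2.2 • ((0, 0, 1) : ℝ × ℝ × ℝ) := by
      ext <;> simp
    have eb : b = b.1 • ((1, 0, 0) : ℝ × ℝ × ℝ) + b.2.1 • ((0, 1, 0) : ℝ × ℝ × ℝ)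
        + b.2.2 • ((0, 0, 1) : ℝ × ℝ × ℝ) := by
      ext <;> simp
    conv_lhs => rw [ea, eb]
    simp only [map_add, map_smul]
    rfl
  -- the invariant fields
  let cs : PP → ℝ := fun p => Real.cos p.1
  let sn : PP → ℝ := fun p => Real.sin p.1
  have hcC : ContDiff ℝ 1 cs := by fun_prop
  have hsC : ContDiff ℝ 1 sn := by fun_prop
  have hcS : ∀ p, cs (sS p) = -cs p := fun p => Real.cos_add_pi _
  have hsS : ∀ p, sn (sS p) = -sn p := fun p => Real.sin_add_pi _
  have hcX : ∀ p, cs (sX p) = cs p := fun p => rfl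
  have hsX : ∀ p, sn (sX p) = sn p := fun p => rfl
  have hcY : ∀ p, cs (sY p) = cs p := fun p => rfl
  have hsY : ∀ p, sn (sY p) = sn p := fun p => rfl
  let P1 : PP → E × ℝ := fun p => (A (1, 0, 0) p + B (1, 0, 0) p, 0)
  let P2 : PP → E × ℝ := fun p => (A (0, 1, 0) p + B (0, 1, 0) p, 0)
  let N1 : PP → E × ℝ := fun p => (cs p • (A (1, 0, 0) p - B (1, 0, 0) p)
    - sn p • (A (0, 1, 0) p - B (0, 1, 0) p), 0)
  let N2 : PP → E × ℝ := fun p => (sn p • (A (1, 0, 0) p - B (1, 0, 0) p)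
    + cs p • (A (0, 1, 0) p - B (0, 1, 0) p), 0)
  let N3 : PP → E × ℝ := fun p => (cs p • D p, -sn p)
  let N4 : PP → E × ℝ := fun p => (sn p • D p, cs p)
  have hgood : Good E 6 ![P1, P2, N1, N2, N3, N4] (fun p => (A (0, 0, 1) p, 0)) := by
    refine ⟨?_, ?_, ?_, ?_, ?_, ?_, ?_, ?_, ?_⟩
    · intro i
      fin_cases i
      · exact ((hAC _).add (hBC _)).prodMk contDiff_const
      · exact ((hAC _).add (hBC _)).prodMk contDiff_const
      · exact ((hcC.smul ((hAC _).sub (hBC _))).sub (hsC.smul ((hAC _).sub (hBC _)))).prodMk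
          contDiff_const
      · exact ((hsC.smul ((hAC _).sub (hBC _))).add (hcC.smul ((hAC _).sub (hBC _)))).prodMk
          contDiff_const
      · exact (hcC.smul hDC).prodMk hsC.neg
      · exact (hsC.smul hDC).prodMk hcC
    · exact (hAC _).continuous.prodMk continuous_const
    · intro i p
      fin_cases i <;>
        simp [P1, P2, N1, N2, N3, N4, hAX, hBX, hDX, hcX, hsX]
    · intro i p
      fin_cases i <;>
        simp [P1, P2, N1, N2, N3, N4, hAY, hBY, hDY, hcY, hsY]
    · intro i p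
      fin_cases i
      · simp [P1, lam, hAS, hBS, add_comm]
      · simp [P2, lam, hAS, hBS, add_comm]
      · change N1 (sS p) = lam (N1 p)
        simp only [N1, lam, hAS, hBS, hcS, hsS]
        refine Prod.ext ?_ (by simp)
        simp only
        module
      · change N2 (sS p) = lam (N2 p)
        simp only [N2, lam, hAS, hBS, hcS, hsS]
        refine Prod.ext ?_ (by simp)
        simp only
        module
      · simp [N3, lam, hDS, hcS, hsS]
      · simp [N4, lam, hDS, hcS, hsS]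
    · intro p
      simp [hAX']
    · intro p
      simp [hAY]
    · intro p
      simp [hAS, hBS]
    · intro p c a b h0
      simp only [Fin.sum_univ_six, hAS, lam] at h0
      have hE1 := congrArg Prod.fst h0
      have hE2 := congrArg Prod.snd h0
      simp [P1, P2, N1, N2, N3, N4] at hE1 hE2
      have hcs : sn p ^ 2 + cs p ^ 2 = 1 := Real.sin_sq_add_cos_sq p.1
      have h4 := hlin p (c 0 + c 2 * cs p + c 3 * sn p, c 1 - c 2 * sn p + c 3 * cs p, a)
        (c 0 - c 2 * cs p - c 3 * sn p, c 1 + c 2 * sn p - c 3 * cs p, b)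
        (c 4 * cs p + c 5 * sn p) (by
          rw [← hE1]
          module)
      simp only [Prod.mk_eq_zero] at h4
      obtain ⟨⟨q1, q2, q3⟩, ⟨q4, q5, q6⟩, q7⟩ := h4
      have c0 : c 0 = 0 := by linarith
      have c1 : c 1 = 0 := by linarith
      have c2 : c 2 = 0 := by
        have r1 : c 2 * cs p + c 3 * sn p = 0 := by linarith
        have r2 : -(c 2 * sn p) + c 3 * cs p = 0 := by linarith
        linear_combination (-c 2) * hcs + cs p * r1 - sn p * r2
      have c3 : c 3 = 0 := by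
        have r1 : c 2 * cs p + c 3 * sn p = 0 := by linarith
        have r2 : -(c 2 * sn p) + c 3 * cs p = 0 := by linarith
        linear_combination (-c 3) * hcs + sn p * r1 + cs p * r2
      have c4 : c 4 = 0 := by
        linear_combination (-c 4) * hcs + cs p * q7 - sn p * hE2
      have c5 : c 5 = 0 := by
        linear_combination (-c 5) * hcs + sn p * q7 + cs p * hE2
      refine ⟨?_, q3, q6⟩
      intro i
      fin_cases i
      · exact c0
      · exact c1
      · exact c2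
      · exact c3
      · exact c4
      · exact c5
  exact no_good 6 E (by omega) _ _ hgood

end Pool.Agent.H45.Skew
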