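import Pool.Agent.H45.Skew.Core

/-!
# The product of the projective line and the projective plane
-/

set_option autoImplicit false

namespace Pool.Agent.H45.Skew

open Module

/-- coordinates of a point of a sphere -/
noncomputable def vc (j : ℕ) (θ s : ℝ) : ℝ :=
  if j = 0 then Real.cos s * Real.cos θ else
    if j = 1 then Real.cos s * Real.sin θ else if j = 2 then Real.sin s else 0

/-- coordinates of a tangent vector -/
noncomputable def dvc (j : ℕ) (θ a b : ℝ) : ℝ :=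
  if j = 0 then -(a * Real.sin θ) else
    if j = 1 then a * Real.cos θ else if j = 2 then b else 0

lemma vc_add_pi (j : ℕ) (θ s : ℝ) : vc j (θ + Real.pi) (-s) = -vc j θ s := by
  unfold vc
  split_ifs <;> simp

lemma hasDerivAt_vc (j : ℕ) (θ a b : ℝ) :
    HasDerivAt (fun τ : ℝ => vc j (θ + τ * a) (0 + τ * b)) (dvc j θ a b) 0 := by
  have h1 : HasDerivAt (fun τ : ℝ => θ + τ * a) a 0 := by
    simpa using ((hasDerivAt_id (0 : ℝ)).mul_const a).const_add θ
  have h2 : HasDerivAt (fun τ : ℝ => 0 + τ * b) b 0 := by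
    simpa using ((hasDerivAt_id (0 : ℝ)).mul_const b).const_add 0
  unfold vc dvc
  split_ifs
  · exact (h2.cos.mul h1.cos).congr_deriv (by simp; ring)
  · exact (h2.cos.mul h1.sin).congr_deriv (by simp; ring)
  · exact h2.sin.congr_deriv (by simp)
  · exact hasDerivAt_const _ _

/-- a point of the sphere in `ℝ^d` -/
noncomputable def vec (d : ℕ) (θ s : ℝ) : EuclideanSpace ℝ (Fin d) :=
  WithLp.toLp 2 fun j : Fin d => vc (j : ℕ) θ s

/-- a tangent vector -/
noncomputable def dvec (d : ℕ) (θ a b : ℝ) : EuclideanSpace ℝ (Fin d) :=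
  WithLp.toLp 2 fun j : Fin d => dvc (j : ℕ) θ a b

lemma vec_add_pi (d : ℕ) (θ s : ℝ) : vec d (θ + Real.pi) (-s) = -vec d θ s := by
  ext j
  simp [vec, vc_add_pi]

lemma norm_vec_two (θ : ℝ) : ‖vec 2 θ 0‖ = 1 := by
  rw [EuclideanSpace.norm_eq, Fin.sum_univ_two]
  simp [vec, vc]

lemma norm_vec_three (θ s : ℝ) : ‖vec 3 θ s‖ = 1 := by
  rw [EuclideanSpace.norm_eq, Fin.sum_univ_three, Real.sqrt_eq_one]
  simp only [Real.norm_eq_abs, sq_abs]
  have e0 : (vec 3 θ s) 0 = Real.cos s * Real.cos θ := rfl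
  have e1 : (vec 3 θ s) 1 = Real.cos s * Real.sin θ := rfl
  have e2 : (vec 3 θ s) 2 = Real.sin s := rfl
  rw [e0, e1, e2]
  linear_combination (Real.cos s ^ 2) * Real.sin_sq_add_cos_sq θ + Real.sin_sq_add_cos_sq s

lemma inner_two (θ a : ℝ) : inner ℝ (vec 2 θ 0) (dvec 2 θ a 0) = (0 : ℝ) := by
  rw [PiLp.inner_apply, Fin.sum_univ_two]
  simp [vec, dvec, vc, dvc]
  ring

lemma inner_three (θ a b : ℝ) : inner ℝ (vec 3 θ 0) (dvec 3 θ a b) = (0 : ℝ) := by
  rw [PiLp.inner_apply, Fin.sum_univ_three]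
  simp [vec, dvec, vc, dvc]
  ring

/-- the two point index set -/
abbrev SS : Finset ℕ := {0, 1}

/-- the product of the ambient spaces -/
abbrev VV : Type := (i : ↥SS) → EuclideanSpace ℝ (Fin (2 ^ (i : ℕ) + 1))

/-- first index -/
def i0 : ↥SS := ⟨0, by simp⟩

/-- second index -/
def i1 : ↥SS := ⟨1, by simp⟩

lemma ind_cases (i : ↥SS) : i = i0 ∨ i = i1 := by
  obtain ⟨i, hi⟩ := i
  simp only [SS, Finset.mem_insert, Finset.mem_singleton] at hi
  rcases hi with rfl | rfl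
  · left; rfl
  · right; rfl

/-- the parametrisation -/
noncomputable def gam (x : ℝ × ℝ × ℝ) : VV := fun i =>
  vec (2 ^ (i : ℕ) + 1) (if i = i0 then x.1 else x.2.1) (if i = i0 then 0 else x.2.2)

/-- its derivative at `s = 0` -/
noncomputable def dgam (x : ℝ × ℝ) (a : ℝ × ℝ × ℝ) : VV := fun i =>
  dvec (2 ^ (i : ℕ) + 1) (if i = i0 then x.1 else x.2) (if i = i0 then a.1 else a.2.1)
    (if i = i0 then 0 else a.2.2)

lemma i1_ne : i1 ≠ i0 := by
  intro h
  have := congrArg Subtype.val h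
  simp [i0, i1] at this

lemma gam_i0 (x : ℝ × ℝ × ℝ) : gam x i0 = vec 2 x.1 0 := rfl

lemma gam_i1 (x : ℝ × ℝ × ℝ) : gam x i1 = vec 3 x.2.1 x.2.2 := by
  unfold gam
  rw [if_neg i1_ne, if_neg i1_ne]
  rfl

lemma norm_gam (x : ℝ × ℝ × ℝ) (i : ↥SS) : ‖gam x i‖ = 1 := by
  rcases ind_cases i with rfl | rfl
  · exact norm_vec_two _
  · rw [gam_i1]
    exact norm_vec_three _ _

lemma inner_gam (t α : ℝ) (a : ℝ × ℝ × ℝ) (i : ↥SS) :
    inner ℝ (gam (t, α, 0) i) (dgam (t, α) a i) = (0 : ℝ) := by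
  rcases ind_cases i with rfl | rfl
  · exact inner_two _ _
  · unfold gam dgam
    simp only [if_neg i1_ne]
    exact inner_three _ _ _

lemma dgam_eq_zero {x : ℝ × ℝ} {a : ℝ × ℝ × ℝ} (h : dgam x a = 0) : a = 0 := by
  have e0 : ∀ j : Fin 2, dvc (j : ℕ) x.1 a.1 0 = 0 := by
    intro j
    have := congrFun h i0
    have h2 := congrArg (fun v : EuclideanSpace ℝ (Fin 2) => v j) this
    exact h2
  have e1 : ∀ j : Fin 3, dvc (j : ℕ) x.2 a.2.1 a.2.2 = 0 := by
    intro j
    have := congrFun h i1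
    unfold dgam at this
    simp only [if_neg i1_ne] at this
    have h2 := congrArg (fun v : EuclideanSpace ℝ (Fin 3) => v j) this
    exact h2
  have key : ∀ u θ : ℝ, -(u * Real.sin θ) = 0 → u * Real.cos θ = 0 → u = 0 := by
    intro u θ h1 h2
    have := Real.sin_sq_add_cos_sq θ
    linear_combination (-u) * this - Real.sin θ * h1 + Real.cos θ * h2
  have a1 : a.1 = 0 := by
    have h0 := e0 0
    have h1 := e0 1
    simp only [dvc, Fin.val_zero, Fin.val_one, if_true, one_ne_zero, if_false] at h0 h1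
    exact key _ _ h0 h1
  have a2 : a.2.1 = 0 := by
    have h0 := e1 0
    have h1 := e1 1
    simp only [dvc, Fin.val_zero, Fin.val_one, if_true, one_ne_zero, if_false] at h0 h1
    exact key _ _ h0 h1
  have a3 : a.2.2 = 0 := by
    have h2 := e1 2
    simpa [dvc] using h2
  exact Prod.ext a1 (Prod.ext a2 a3)

lemma gam_shift0 (t α s : ℝ) :
    gam (t + Real.pi, α, s) = Function.update (gam (t, α, s)) i0 (-(gam (t, α, s)) i0) := by
  funext i
  rcases ind_cases i with rfl | rfl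
  · rw [Function.update_self, gam_i0, gam_i0]
    have := vec_add_pi 2 t 0
    rw [neg_zero] at this
    exact this
  · rw [Function.update_of_ne i1_ne, gam_i1, gam_i1]

lemma gam_shift1 (t α s : ℝ) :
    gam (t, α + Real.pi, -s) = Function.update (gam (t, α, s)) i1 (-(gam (t, α, s)) i1) := by
  funext i
  rcases ind_cases i with rfl | rfl
  · rw [Function.update_of_ne i1_ne.symm, gam_i0, gam_i0]
  · rw [Function.update_self, gam_i1, gam_i1]
    exact vec_add_pi 3 α s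

lemma gam_apply (x : ℝ × ℝ × ℝ) (i : ↥SS) (j : Fin (2 ^ (i : ℕ) + 1)) :
    gam x i j = vc (j : ℕ) (if i = i0 then x.1 else x.2.1) (if i = i0 then 0 else x.2.2) := rfl

lemma contDiff_gam : ContDiff ℝ 2 gam := by
  rw [contDiff_pi]
  intro i
  rw [contDiff_euclidean]
  intro j
  simp only [gam_apply]
  unfold vc
  split_ifs <;> fun_prop

lemma fderiv_gam (t α : ℝ) (a : ℝ × ℝ × ℝ) :
    fderiv ℝ gam (t, α, 0) a = dgam (t, α) a := by
  have hd : DifferentiableAt ℝ gam (t, α, 0) :=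
    (contDiff_gam.differentiable (by norm_num)) _
  funext i
  ext j
  let L : VV →L[ℝ] ℝ := (EuclideanSpace.proj j : EuclideanSpace ℝ (Fin (2 ^ (i : ℕ) + 1)) →L[ℝ] ℝ).comp
    (ContinuousLinearMap.proj i)
  have h1 : HasDerivAt (fun τ : ℝ => ((t, α, 0) : ℝ × ℝ × ℝ) + τ • a) a 0 := by
    simpa using ((hasDerivAt_id (0 : ℝ)).smul_const a).const_add ((t, α, 0) : ℝ × ℝ × ℝ)
  have h2 : HasDerivAt (fun τ : ℝ => gam (((t, α, 0) : ℝ × ℝ × ℝ) + τ • a) i j)
      ((fderiv ℝ gam (t, α, 0) a) i j) 0 := by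
    have hd' : HasFDerivAt gam (fderiv ℝ gam (t, α, 0))
        (((t, α, 0) : ℝ × ℝ × ℝ) + (0 : ℝ) • a) := by
      rw [zero_smul, add_zero]
      exact hd.hasFDerivAt
    exact L.hasFDerivAt.comp_hasDerivAt 0 (hd'.comp_hasDerivAt 0 h1)
  have h3 : HasDerivAt (fun τ : ℝ => gam (((t, α, 0) : ℝ × ℝ × ℝ) + τ • a) i j)
      (dgam (t, α) a i j) 0 := by
    rcases ind_cases i with rfl | rfl
    · have := hasDerivAt_vc (j : ℕ) t a.1 0
      simp only [mul_zero, add_zero] at this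
      exact this
    · have h4 := hasDerivAt_vc (j : ℕ) α a.2.1 a.2.2
      have e1 : (fun τ : ℝ => gam (((t, α, 0) : ℝ × ℝ × ℝ) + τ • a) i1 j)
          = fun τ : ℝ => vc (j : ℕ) (α + τ * a.2.1) (0 + τ * a.2.2) := by
        funext τ
        rw [gam_apply, if_neg i1_ne, if_neg i1_ne]
        rfl
      have e2 : dgam (t, α) a i1 j = dvc (j : ℕ) α a.2.1 a.2.2 := by
        unfold dgam
        simp only [if_neg i1_ne]
        rfl
      rw [e1, e2]
      exact h4
  exact h2.unique h3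

lemma gam_ne (t α β : ℝ) : ¬ (∀ i, gam (t + Real.pi / 2, β, 0) i = gam (t, α, 0) i ∨
    gam (t + Real.pi / 2, β, 0) i = -gam (t, α, 0) i) := by
  intro h
  have hsc := Real.sin_sq_add_cos_sq t
  have key : ∀ u v : EuclideanSpace ℝ (Fin 2), u = v → u 0 = v 0 ∧ u 1 = v 1 := by
    intro u v huv
    rw [huv]
    exact ⟨rfl, rfl⟩
  rcases h i0 with h1 | h1
  · obtain ⟨e0, e1⟩ := key _ _ h1
    rw [gam_i0, gam_i0] at e0 e1
    simp [vec, vc, Real.cos_add_pi_div_two, Real.sin_add_pi_div_two] at e0 e1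
    nlinarith
  · obtain ⟨e0, e1⟩ := key _ _ h1
    rw [PiLp.neg_apply] at e0 e1
    rw [gam_i0, gam_i0] at e0 e1
    simp [vec, vc, Real.cos_add_pi_div_two, Real.sin_add_pi_div_two] at e0 e1
    nlinarith

/-- The product of the projective line and the projective plane has no totally skew embedding in
dimension nine. -/
theorem no_embedding (f : VV → EuclideanSpace ℝ (Fin 9))
    (hf : ContDiff ℝ ((⊤ : ℕ∞) : WithTop ℕ∞) f)
    (hinv : ∀ x : VV, (∀ i, ‖x i‖ = 1) → ∀ i, f (Function.update x i (-x i)) = f x)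
    (hskew : ∀ x y : VV, (∀ i, ‖x i‖ = 1) → (∀ i, ‖y i‖ = 1) →
        ¬ (∀ i, y i = x i ∨ y i = -x i) →
        ∀ u w : VV, (∀ i, inner ℝ (x i) (u i) = (0 : ℝ)) → (∀ i, inner ℝ (y i) (w i) = (0 : ℝ)) →
          ∀ t : ℝ, fderiv ℝ f x u + fderiv ℝ f y w + t • (f y - f x) = 0 →
            u = 0 ∧ w = 0 ∧ t = 0) : False := by
  have hf2 : ContDiff ℝ 2 f := hf.of_le (by
    have : ((2 : ℕ∞) : WithTop ℕ∞) ≤ ((⊤ : ℕ∞) : WithTop ℕ∞) := by
      exact_mod_cast (le_top : (2 : ℕ∞) ≤ ⊤)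
    exact this)
  have hfd : Differentiable ℝ f := hf2.differentiable (by norm_num)
  have hgd : Differentiable ℝ gam := contDiff_gam.differentiable (by norm_num)
  refine core (E := EuclideanSpace ℝ (Fin 9)) (by simp) (fun x => f (gam x))
    (hf2.comp contDiff_gam) ?_ ?_ ?_
  · intro t α s
    rw [gam_shift0]
    exact hinv _ (norm_gam _) i0
  · intro t α s
    rw [gam_shift1]
    exact hinv _ (norm_gam _) i1
  · intro t α β a b c h0
    have hch : ∀ (x : ℝ × ℝ × ℝ) (a : ℝ × ℝ × ℝ), fderiv ℝ (fun x => f (gam x)) x a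
        = fderiv ℝ f (gam x) (fderiv ℝ gam x a) := by
      intro x a
      have := fderiv_comp x (hfd (gam x)) (hgd x)
      change fderiv ℝ (f ∘ gam) x a = _
      rw [this]
      rfl
    rw [hch, hch, fderiv_gam, fderiv_gam] at h0
    obtain ⟨h1, h2, h3⟩ := hskew (gam (t, α, 0)) (gam (t + Real.pi / 2, β, 0)) (norm_gam _)
      (norm_gam _) (gam_ne t α β) _ _ (inner_gam t α a) (inner_gam _ β b) c h0
    exact ⟨dgam_eq_zero h1, dgam_eq_zero h2, h3⟩

end Pool.Agent.H45.Skew
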