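import Pool.Agent.H45.Skew.Quat

/-!
# Lifting maps from three-space to the two-sphere through the Hopf map
-/

set_option autoImplicit false

namespace Pool.Agent.H45.Skew

open Quaternion

/-- The rotor taking the unit imaginary `a` to `b` (unnormalised). -/
noncomputable def rot (a b : ℍ[ℝ]) : ℍ[ℝ] := 1 - b * a

lemma mul_rot {a b : ℍ[ℝ]} (ha : a * a = -1) (hb : b * b = -1) : b * rot a b = rot a b * a := by
  unfold rot
  rw [mul_sub, sub_mul, mul_one, one_mul, ← mul_assoc, hb, mul_assoc b a a, ha]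
  simp only [neg_mul, one_mul, mul_neg, mul_one, sub_neg_eq_add]
  abel

lemma rot_self {a : ℍ[ℝ]} (ha : a * a = -1) : rot a a = 2 := by
  unfold rot
  rw [ha]
  norm_num

lemma rot_ne_zero {a b : ℍ[ℝ]} (ha : a * a = -1) (hna : ‖a‖ = 1) (h : ‖a - b‖ < 2) :
    rot a b ≠ 0 := by
  intro h0
  have h1 : b * a = 1 := by
    unfold rot at h0
    exact (sub_eq_zero.1 h0).symm
  have h2 : b = -a := by
    have h3 : b * (a * a) = a := by rw [← mul_assoc, h1, one_mul]
    rw [ha, mul_neg, mul_one] at h3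
    rw [← h3, neg_neg]
  rw [h2, sub_neg_eq_add, ← two_smul ℝ a, norm_smul, hna] at h
  norm_num at h

/-- Lifting one step. -/
lemma step_lift {a b m : PP → ℍ[ℝ]} (hac : Continuous a) (hbc : Continuous b)
    (hmc : Continuous m) (ha : ∀ p, a p * a p = -1) (hb : ∀ p, b p * b p = -1)
    (hna : ∀ p, ‖a p‖ = 1) (hclose : ∀ p, ‖a p - b p‖ < 2)
    (hmn : ∀ p, ‖m p‖ = 1) (hm : ∀ p, a p * m p = m p * qi) :
    ∃ m' : PP → ℍ[ℝ], Continuous m' ∧ (∀ p, ‖m' p‖ = 1) ∧ (∀ p, b p * m' p = m' p * qi) ∧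
      ∀ p, a p = b p → m' p = m p := by
  have hne : ∀ p, rot (a p) (b p) ≠ 0 := fun p => rot_ne_zero (ha p) (hna p) (hclose p)
  have hrc : Continuous fun p => rot (a p) (b p) := by
    unfold rot
    fun_prop
  refine ⟨fun p => ‖rot (a p) (b p)‖⁻¹ • (rot (a p) (b p) * m p), ?_, ?_, ?_, ?_⟩
  · exact (hrc.norm.inv₀ fun p => norm_ne_zero_iff.2 (hne p)).smul (hrc.mul hmc)
  · intro p
    rw [norm_smul, norm_mul, hmn, mul_one, norm_inv, norm_norm]
    exact inv_mul_cancel₀ (norm_ne_zero_iff.2 (hne p))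
  · intro p
    rw [mul_smul_comm, smul_mul_assoc, ← mul_assoc, mul_rot (ha p) (hb p), mul_assoc, hm,
      mul_assoc]
  · intro p hp
    simp only [← hp, rot_self (ha p)]
    rw [show (2 : ℍ[ℝ]) * m p = (2 : ℝ) • m p by
      rw [two_smul, two_mul]]
    have h2 : ‖(2 : ℍ[ℝ])‖ = 2 := by
      rw [← one_add_one_eq_two, ← two_smul ℝ (1 : ℍ[ℝ]), norm_smul, norm_one]
      norm_num
    rw [h2, smul_smul]
    norm_num

/-- clamping a real number -/
def clamp (ρ x : ℝ) : ℝ := max (-ρ) (min x ρ)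

/-- clamping each coordinate -/
def rc (ρ : ℝ) (p : PP) : PP := (clamp ρ p.1, clamp ρ p.2.1, clamp ρ p.2.2)

lemma continuous_rc (ρ : ℝ) : Continuous (rc ρ) := by
  unfold rc clamp
  fun_prop

lemma abs_clamp_le {ρ : ℝ} (hρ : 0 ≤ ρ) (x : ℝ) : |clamp ρ x| ≤ ρ := by
  unfold clamp
  rw [abs_le]
  constructor
  · exact le_max_left _ _
  · exact max_le (by linarith) (min_le_right _ _)

lemma clamp_of_le {ρ x : ℝ} (h : |x| ≤ ρ) : clamp ρ x = x := by
  unfold clamp
  rw [abs_le] at h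
  rw [min_eq_left h.2, max_eq_right h.1]

lemma abs_clamp_sub {ρ ρ' : ℝ} (h : ρ ≤ ρ') (x : ℝ) :
    |clamp ρ x - clamp ρ' x| ≤ ρ' - ρ := by
  unfold clamp
  rw [abs_le]
  constructor
  · have h1 : max (-ρ') (min x ρ') ≤ max (-ρ) (min x ρ) + (ρ' - ρ) := by
      apply max_le
      · have := le_max_left (-ρ) (min x ρ)
        linarith
      · have h3 := le_max_right (-ρ) (min x ρ)
        rcases le_total x ρ with hx | hx
        · rw [min_eq_left hx] at h3 ⊢
          have := min_le_left x ρ'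
          linarith
        · rw [min_eq_right hx] at h3 ⊢
          have := min_le_right x ρ'
          linarith
    linarith
  · have h1 : max (-ρ) (min x ρ) ≤ max (-ρ') (min x ρ') + (ρ' - ρ) := by
      apply max_le
      · have := le_max_left (-ρ') (min x ρ')
        linarith
      · have h3 := le_max_right (-ρ') (min x ρ')
        rcases le_total x ρ' with hx | hx
        · rw [min_eq_left hx] at h3 ⊢
          have := min_le_left x ρ
          linarith
        · rw [min_eq_right hx] at h3 ⊢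
          have := min_le_right x ρ
          linarith
    linarith

lemma norm_le_iff (p : PP) (ρ : ℝ) : ‖p‖ ≤ ρ ↔ |p.1| ≤ ρ ∧ |p.2.1| ≤ ρ ∧ |p.2.2| ≤ ρ := by
  rw [Prod.norm_def, Prod.norm_def, max_le_iff, max_le_iff, Real.norm_eq_abs, Real.norm_eq_abs,
    Real.norm_eq_abs]

lemma norm_rc_le {ρ : ℝ} (hρ : 0 ≤ ρ) (p : PP) : ‖rc ρ p‖ ≤ ρ := by
  rw [norm_le_iff]
  exact ⟨abs_clamp_le hρ _, abs_clamp_le hρ _, abs_clamp_le hρ _⟩

lemma rc_of_le {ρ : ℝ} {p : PP} (h : ‖p‖ ≤ ρ) : rc ρ p = p := by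
  rw [norm_le_iff] at h
  unfold rc
  rw [clamp_of_le h.1, clamp_of_le h.2.1, clamp_of_le h.2.2]

lemma norm_rc_sub {ρ ρ' : ℝ} (h : ρ ≤ ρ') (p : PP) : ‖rc ρ p - rc ρ' p‖ ≤ ρ' - ρ := by
  rw [norm_le_iff]
  exact ⟨abs_clamp_sub h _, abs_clamp_sub h _, abs_clamp_sub h _⟩

/-- Extending a lift from one cube to the next. -/
lemma extend_lift {w : PP → ℍ[ℝ]} (hwc : Continuous w) (hw : ∀ p, w p * w p = -1)
    (hnw : ∀ p, ‖w p‖ = 1) {ρ : ℝ} (hρ : 0 ≤ ρ) {m : PP → ℍ[ℝ]} (hmc : Continuous m)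
    (hmn : ∀ p, ‖m p‖ = 1) (hm : ∀ p, w (rc ρ p) * m p = m p * qi) :
    ∃ m' : PP → ℍ[ℝ], Continuous m' ∧ (∀ p, ‖m' p‖ = 1) ∧
      (∀ p, w (rc (ρ + 1) p) * m' p = m' p * qi) ∧ ∀ p, ‖p‖ ≤ ρ → m' p = m p := by
  have hK : IsCompact (Metric.closedBall (0 : PP) (ρ + 1)) := isCompact_closedBall _ _
  have huc : UniformContinuousOn w (Metric.closedBall (0 : PP) (ρ + 1)) :=
    hK.uniformContinuousOn_of_continuous hwc.continuousOn
  rw [Metric.uniformContinuousOn_iff] at huc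
  obtain ⟨δ, hδ, hclose⟩ := huc 2 (by norm_num)
  obtain ⟨n, hn⟩ := exists_nat_gt (1 / δ)
  have hn0 : (0 : ℝ) < n := lt_trans (by positivity) hn
  have hstep : ∀ k : ℕ, k ≤ n → ∃ m' : PP → ℍ[ℝ], Continuous m' ∧ (∀ p, ‖m' p‖ = 1) ∧
      (∀ p, w (rc (ρ + k / n) p) * m' p = m' p * qi) ∧ ∀ p, ‖p‖ ≤ ρ → m' p = m p := by
    intro k
    induction k with
    | zero =>
      intro _
      refine ⟨m, hmc, hmn, ?_, fun _ _ => rfl⟩
      simpa using hm
    | succ k ih =>
      intro hk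
      obtain ⟨m₁, hc1, hn1, hl1, he1⟩ := ih (by omega)
      have hk1 : (k : ℝ) + 1 ≤ n := by exact_mod_cast hk
      have hρk : 0 ≤ ρ + k / n := by positivity
      have hle : ρ + k / n ≤ ρ + ((k + 1 : ℕ) : ℝ) / n := by
        push_cast
        gcongr
        linarith
      have hdiff : ρ + ((k + 1 : ℕ) : ℝ) / n - (ρ + k / n) < δ := by
        push_cast
        have : ρ + ((k : ℝ) + 1) / n - (ρ + k / n) = 1 / n := by
          field_simp
          ring
        rw [this]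
        rw [div_lt_iff₀ hn0]
        rw [div_lt_iff₀ hδ] at hn
        linarith
      have hb1 : ρ + (k : ℝ) / n ≤ ρ + 1 := by
        have : (k : ℝ) / n ≤ 1 := by
          rw [div_le_one hn0]
          linarith
        linarith
      have hb2 : ρ + ((k + 1 : ℕ) : ℝ) / n ≤ ρ + 1 := by
        have : ((k + 1 : ℕ) : ℝ) / n ≤ 1 := by
          rw [div_le_one hn0]
          push_cast
          linarith
        linarith
      obtain ⟨m₂, hc2, hn2, hl2, he2⟩ := step_lift (a := fun p => w (rc (ρ + k / n) p))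
        (b := fun p => w (rc (ρ + ((k + 1 : ℕ) : ℝ) / n) p)) (m := m₁)
        (hwc.comp (continuous_rc _)) (hwc.comp (continuous_rc _)) hc1 (fun p => hw _)
        (fun p => hw _) (fun p => hnw _) (fun p => by
          rw [← dist_eq_norm]
          apply hclose
          · rw [mem_closedBall_zero_iff]
            exact (norm_rc_le hρk p).trans hb1
          · rw [mem_closedBall_zero_iff]
            exact (norm_rc_le (hρk.trans hle) p).trans hb2
          · rw [dist_eq_norm]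
            exact (norm_rc_sub hle p).trans_lt hdiff) hn1 hl1
      refine ⟨m₂, hc2, hn2, hl2, fun p hp => ?_⟩
      rw [he2 p, he1 p hp]
      have h1 : ‖p‖ ≤ ρ + k / n := hp.trans (by
        have : (0 : ℝ) ≤ k / n := by positivity
        linarith)
      simp only [rc_of_le h1, rc_of_le (h1.trans hle)]
  obtain ⟨m', h1, h2, h3, h4⟩ := hstep n le_rfl
  refine ⟨m', h1, h2, ?_, h4⟩
  rwa [div_self hn0.ne'] at h3

/-- Any two-sphere valued map on three-space lifts through the Hopf map. -/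
lemma hopf_lift {w : PP → ℍ[ℝ]} (hwc : Continuous w) (hw : ∀ p, w p * w p = -1)
    (hnw : ∀ p, ‖w p‖ = 1) :
    ∃ m : PP → ℍ[ℝ], Continuous m ∧ (∀ p, ‖m p‖ = 1) ∧ ∀ p, w p * m p = m p * qi := by
  -- start
  have hqi : qi * qi = -1 := by ext <;> simp [qi]
  have h0 : ∃ m : PP → ℍ[ℝ], Continuous m ∧ (∀ p, ‖m p‖ = 1) ∧
      ∀ p, w (rc ((0 : ℕ) : ℝ) p) * m p = m p * qi := by
    have hrc0 : ∀ p, rc ((0 : ℕ) : ℝ) p = 0 := by
      intro p
      have := norm_rc_le (ρ := ((0 : ℕ) : ℝ)) (by simp) p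
      rw [Nat.cast_zero] at this ⊢
      exact norm_le_zero_iff.1 this
    simp only [hrc0]
    by_cases hc : w 0 = -qi
    · refine ⟨fun _ => qj, continuous_const, fun _ => norm_qj, fun _ => ?_⟩
      rw [hc, qj_mul_qi, neg_mul]
    · have hlt : ‖qi - w 0‖ < 2 := by
        by_contra hge
        push Not at hge
        apply hc
        have h5 : ‖qi - w 0‖ * ‖qi - w 0‖ + ‖qi + w 0‖ * ‖qi + w 0‖ = 4 := by
          have := parallelogram_law_with_norm ℝ qi (w 0)
          rw [norm_qi, hnw] at this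
          nlinarith [this]
        have h6 : ‖qi + w 0‖ = 0 := by
          nlinarith [norm_nonneg (qi + w 0)]
        rw [norm_eq_zero] at h6
        exact (neg_eq_of_add_eq_zero_right h6).symm
      obtain ⟨m', a, b, c, -⟩ := step_lift (a := fun _ => qi) (b := fun _ => w 0)
        (m := fun _ => (1 : ℍ[ℝ])) continuous_const continuous_const continuous_const
        (fun _ => hqi) (fun _ => hw 0) (fun _ => norm_qi) (fun _ => hlt) (fun _ => norm_one)
        (fun _ => by rw [mul_one, one_mul])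
      exact ⟨m', a, b, c⟩
  -- the sequence
  let Good : ℕ → (PP → ℍ[ℝ]) → Prop := fun N m => Continuous m ∧ (∀ p, ‖m p‖ = 1) ∧
    ∀ p, w (rc (N : ℝ) p) * m p = m p * qi
  have hext : ∀ (N : ℕ) (m : PP → ℍ[ℝ]), Good N m → ∃ m', Good (N + 1) m' ∧
      ∀ p, ‖p‖ ≤ (N : ℝ) → m' p = m p := by
    intro N m hm
    obtain ⟨m', a, b, c, d⟩ := extend_lift hwc hw hnw (ρ := (N : ℝ)) (Nat.cast_nonneg N)
      hm.1 hm.2.1 hm.2.2
    refine ⟨m', ⟨a, b, ?_⟩, d⟩
    push_cast
    exact c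
  choose! nxt hnxt1 hnxt2 using hext
  obtain ⟨m₀, hm₀⟩ := h0
  let M : ℕ → PP → ℍ[ℝ] := fun N => Nat.rec m₀ (fun N m => nxt N m) N
  have hM : ∀ N, Good N (M N) := by
    intro N
    induction N with
    | zero => exact hm₀
    | succ N ih => exact hnxt1 N (M N) ih
  have hMs : ∀ (N : ℕ) (p : PP), ‖p‖ ≤ (N : ℝ) → M (N + 1) p = M N p := fun N p hp =>
    hnxt2 N (M N) (hM N) p hp
  have hMle : ∀ (N k : ℕ) (p : PP), ‖p‖ ≤ (N : ℝ) → M (N + k) p = M N p := by
    intro N k p hp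
    induction k with
    | zero => rfl
    | succ k ih =>
      rw [← add_assoc, hMs (N + k) p (hp.trans (by push_cast; linarith [Nat.cast_nonneg (α := ℝ) k])), ih]
  let F : PP → ℍ[ℝ] := fun p => M ⌈‖p‖⌉₊ p
  have hF : ∀ (N : ℕ) p, ‖p‖ ≤ (N : ℝ) → F p = M N p := by
    intro N p hp
    have h1 : ⌈‖p‖⌉₊ ≤ N := Nat.ceil_le.2 hp
    obtain ⟨k, rfl⟩ := Nat.exists_eq_add_of_le h1
    exact (hMle ⌈‖p‖⌉₊ k p (Nat.le_ceil _)).symm
  refine ⟨F, ?_, ?_, ?_⟩
  · rw [continuous_iff_continuousAt]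
    intro p
    obtain ⟨N, hN⟩ := exists_nat_gt ‖p‖
    have h1 : F =ᶠ[nhds p] M N := by
      have h2 : ∀ᶠ q in nhds p, ‖q‖ < N := continuous_norm.continuousAt.eventually_lt
        continuousAt_const hN
      filter_upwards [h2] with q hq
      exact hF N q hq.le
    exact ((hM N).1.continuousAt).congr h1.symm
  · intro p
    exact (hM _).2.1 p
  · intro p
    have h1 := (hM ⌈‖p‖⌉₊).2.2 p
    rw [rc_of_le (Nat.le_ceil ‖p‖)] at h1
    exact h1

end Pool.Agent.H45.Skew
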