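import Pool.Agent.H45.Skew.Hopf

/-!
# The parity obstruction
-/

set_option autoImplicit false

namespace Pool.Agent.H45.Skew

open Quaternion

/-- shift of the second coordinate -/
noncomputable def sX (p : PP) : PP := (p.1, p.2.1 + Real.pi, p.2.2)

/-- shift of the third coordinate -/
noncomputable def sY (p : PP) : PP := (p.1, p.2.1, p.2.2 + Real.pi)

/-- the square root of the double shift of the first coordinate -/
noncomputable def sS (p : PP) : PP := (p.1 + Real.pi, p.2.2, p.2.1)

lemma sS_sX (p : PP) : sS (sX p) = sY (sS p) := rfl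

lemma sS_sY (p : PP) : sS (sY p) = sX (sS p) := rfl

lemma sX_sY (p : PP) : sX (sY p) = sY (sX p) := rfl

@[fun_prop]
lemma continuous_sX : Continuous sX := by unfold sX; fun_prop

@[fun_prop]
lemma continuous_sY : Continuous sY := by unfold sY; fun_prop

@[fun_prop]
lemma continuous_sS : Continuous sS := by unfold sS; fun_prop

lemma ex_sub_eq_one {s t : ℝ} (h : ex s = ex t) : ex (s - t) = 1 := by
  have h1 : ex s * ex (-t) = ex t * ex (-t) := by rw [h]
  rwa [← ex_add, ← ex_add, add_neg_cancel, ex_zero, ← sub_eq_add_neg] at h1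

lemma ex_sub_eq_neg_one {s t : ℝ} (h : -ex s = ex t) : ex (s - t) = -1 := by
  have h1 : ex s * ex (-t) = -(ex t * ex (-t)) := by
    rw [← h]; simp
  rwa [← ex_add, ← ex_add, add_neg_cancel, ex_zero, ← sub_eq_add_neg] at h1

/-- The parity obstruction, for normalised data: `E` unit, `h = -star (E (S p) * E p)` never real. -/
theorem no_unit_frame (E : PP → ℍ[ℝ]) (hE : Continuous E) (hn : ∀ p, ‖E p‖ = 1)
    (hX : ∀ p, E (sX p) = -E p) (hY : ∀ p, E (sY p) = E p) (hT : ∀ p, E (sS (sS p)) = E p)
    (hne : ∀ p, (E (sS p) * E p).im ≠ 0) : False := by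
  -- the relative quaternion
  let h : PP → ℍ[ℝ] := fun p => -star (E (sS p) * E p)
  have hhc : Continuous h := by
    have : Continuous fun p => E (sS p) := hE.comp continuous_sS
    fun_prop
  have hhn : ∀ p, ‖h p‖ = 1 := by
    intro p
    simp only [h]
    rw [norm_neg, Quaternion.norm_star, norm_mul, hn, hn, one_mul]
  have hZE : ∀ p, E (sX (sY p)) = -E p := by
    intro p
    rw [hX, hY]
  have hhX : ∀ p, h (sX p) = -h p := by
    intro p
    simp only [h]
    rw [sS_sX, hY, hX]
    simp
  have hhZ : ∀ p, h (sX (sY p)) = h p := by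
    intro p
    simp only [h]
    rw [sS_sX, sS_sY, ← sX_sY, hZE, hZE]
    simp
  have hhS : ∀ p, h (sS p) * E p = E p * h p := by
    intro p
    simp only [h]
    rw [hT, star_mul, star_mul]
    rw [neg_mul, mul_neg, mul_assoc, star_mul_self_of_norm (hn p)]
    rw [← mul_assoc, self_mul_star_of_norm (hn p), mul_one, one_mul]
  have hhim : ∀ p, (h p).im ≠ 0 := by
    intro p h0
    apply hne p
    simp only [h] at h0
    have h1 : ∀ q : ℍ[ℝ], (-star q).im = q.im := fun q => by ext <;> simp
    rwa [h1] at h0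
  -- the direction
  let w : PP → ℍ[ℝ] := fun p => ‖(h p).im‖⁻¹ • (h p).im
  have himn : ∀ p, ‖(h p).im‖ ≠ 0 := fun p => norm_ne_zero_iff.2 (hhim p)
  have hwc : Continuous w := by
    have h1 : Continuous fun p => (h p).im := Quaternion.continuous_im.comp hhc
    exact (h1.norm.inv₀ himn).smul h1
  have hwn : ∀ p, ‖w p‖ = 1 := by
    intro p
    simp only [w]
    rw [norm_smul, norm_inv, norm_norm, inv_mul_cancel₀ (himn p)]
  have hwstar : ∀ p, star (w p) = -w p := by
    intro p
    simp only [w]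
    rw [Quaternion.star_smul]
    ext <;> simp
  have hww : ∀ p, w p * w p = -1 := by
    intro p
    have h1 := self_mul_star_of_norm (hwn p)
    rw [hwstar, mul_neg] at h1
    rw [← h1, neg_neg]
  have hwX : ∀ p, w (sX p) = -w p := by
    intro p
    simp only [w, hhX]
    simp
  have hwZ : ∀ p, w (sX (sY p)) = w p := by
    intro p
    simp only [w, hhZ]
  -- conjugation
  have himconj : ∀ p, (h (sS p)).im = E p * (h p).im * star (E p) := by
    intro p
    have h1 : h (sS p) = E p * h p * star (E p) := by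
      rw [← hhS, mul_assoc, self_mul_star_of_norm (hn p), mul_one]
    have h2 : ∀ a b : ℍ[ℝ], ‖a‖ = 1 → (a * b * star a).im = a * b.im * star a := by
      intro a b ha
      have h3 : b = (b.re : ℍ[ℝ]) + b.im := (Quaternion.re_add_im b).symm
      have h4 : a * b * star a = (b.re : ℍ[ℝ]) + a * b.im * star a := by
        conv_lhs => rw [h3]
        rw [mul_add, add_mul, ← Quaternion.coe_commutes, mul_assoc, self_mul_star_of_norm ha,
          mul_one]
      have h5 : (a * b.im * star a).re = 0 := by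
        have h6 : star (a * b.im * star a) = -(a * b.im * star a) := by
          rw [star_mul, star_mul, star_star]
          have : star b.im = -b.im := by ext <;> simp
          rw [this]
          noncomm_ring
        have h7 := congrArg QuaternionAlgebra.re h6
        simp only [Quaternion.re_star, Quaternion.re_neg] at h7
        linarith
      rw [h4, Quaternion.im_add, Quaternion.im_coe, zero_add]
      ext <;> simp [h5]
    rw [h1, h2 _ _ (hn p)]
  have hwS : ∀ p, w (sS p) * E p = E p * w p := by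
    intro p
    simp only [w]
    have h1 : ‖(h (sS p)).im‖ = ‖(h p).im‖ := by
      rw [himconj, norm_mul, norm_mul, Quaternion.norm_star, hn, one_mul, mul_one]
    rw [h1, himconj, smul_mul_assoc, mul_assoc, star_mul_self_of_norm (hn p), mul_one,
      mul_smul_comm]
  -- the Hopf lift
  obtain ⟨m, hmc, hmn, hm⟩ := hopf_lift hwc hww hwn
  -- phases
  obtain ⟨θZ, hθZc, hθZ⟩ : ∃ θ : PP → ℝ, Continuous θ ∧ ∀ p, m (sX (sY p)) = m p * ex (θ p) := by
    refine exists_phase (m₁ := m) (m₂ := fun p => m (sX (sY p))) (v := w) hmc (by fun_prop) hmn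
      (fun p => hmn _) hm fun p => ?_
    rw [← hwZ p]
    exact hm _
  obtain ⟨θS, hθSc, hθS⟩ : ∃ θ : PP → ℝ, Continuous θ ∧ ∀ p, m (sS p) = E p * m p * ex (θ p) := by
    refine exists_phase (m₁ := fun p => E p * m p) (m₂ := fun p => m (sS p))
      (v := fun p => w (sS p)) (by fun_prop) (by fun_prop) (fun p => ?_)
      (fun p => hmn _) (fun p => ?_) fun p => hm _
    · rw [norm_mul, hn, hmn, one_mul]
    · rw [← mul_assoc, hwS, mul_assoc, hm, mul_assoc]
  obtain ⟨θX, hθXc, hθX⟩ : ∃ θ : PP → ℝ, Continuous θ ∧ ∀ p, m (sX p) = m p * qj * ex (θ p) := by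
    refine exists_phase (m₁ := fun p => m p * qj) (m₂ := fun p => m (sX p))
      (v := fun p => w (sX p)) (by fun_prop) (by fun_prop) (fun p => ?_)
      (fun p => hmn _) (fun p => ?_) fun p => hm _
    · rw [norm_mul, norm_qj, hmn, one_mul]
    · rw [hwX, neg_mul, ← mul_assoc, hm, mul_assoc, mul_assoc, qj_mul_qi, mul_neg]
  -- the angle of `-star h`
  let ψ : PP → ℝ := fun p => Real.arccos (-(h p).re)
  have hψc : Continuous ψ := by
    have h1 : Continuous fun p => (h p).re := Quaternion.continuous_re.comp hhc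
    exact Real.continuous_arccos.comp h1.neg
  have hψZ : ∀ p, ψ (sX (sY p)) = ψ p := by
    intro p
    simp only [ψ, hhZ]
  have hψ : ∀ p, E (sS p) * E p * m p = m p * ex (ψ p) := by
    intro p
    have h1 : E (sS p) * E p = -star (h p) := by
      simp only [h]
      simp
    have hsq : (h p).re ^ 2 + ‖(h p).im‖ ^ 2 = 1 := by
      have h2 : ‖h p‖ * ‖h p‖ = 1 := by rw [hhn, one_mul]
      have h3 : ‖(h p).im‖ ^ 2 = Quaternion.normSq (h p).im := by
        rw [Quaternion.normSq_eq_norm_mul_self, sq]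
      rw [h3]
      rw [← Quaternion.normSq_eq_norm_mul_self, Quaternion.normSq_def'] at h2
      rw [Quaternion.normSq_def']
      simp only [Quaternion.re_im, Quaternion.imI_im, Quaternion.imJ_im, Quaternion.imK_im]
      linarith
    have hr1 : -1 ≤ -(h p).re := by nlinarith [sq_nonneg (‖(h p).im‖)]
    have hr2 : -(h p).re ≤ 1 := by nlinarith [sq_nonneg (‖(h p).im‖)]
    have hcos : Real.cos (ψ p) = -(h p).re := Real.cos_arccos hr1 hr2
    have hsin : Real.sin (ψ p) = ‖(h p).im‖ := by
      simp only [ψ]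
      rw [Real.sin_arccos, show 1 - (-(h p).re) ^ 2 = ‖(h p).im‖ ^ 2 by linarith,
        Real.sqrt_sq (norm_nonneg _)]
    have h4 : -star (h p) = ((Real.cos (ψ p) : ℝ) : ℍ[ℝ]) + Real.sin (ψ p) • w p := by
      rw [hcos, hsin]
      simp only [w]
      rw [smul_smul, mul_inv_cancel₀ (himn p), one_smul]
      ext <;> simp
    have h5 : ex (ψ p) = ((Real.cos (ψ p) : ℝ) : ℍ[ℝ]) + Real.sin (ψ p) • qi := by
      ext <;> simp [ex, qi]
    rw [h1, h4, h5, add_mul, mul_add, smul_mul_assoc, hm, mul_smul_comm, Quaternion.coe_commutes]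
  -- first constant
  let A : PP → ℝ := fun p => θZ p + θS (sX (sY p)) - (θS p + θZ (sS p))
  have hAc : Continuous A := by fun_prop
  have hA : ∀ p, ex (A p) = -1 := by
    intro p
    apply ex_sub_eq_neg_one
    have h1 : m (sS (sX (sY p))) = -(E p * m p * ex (θZ p + θS (sX (sY p)))) := by
      rw [hθS, hθZ, hZE, ex_add]
      noncomm_ring
    have h2 : m (sS (sX (sY p))) = E p * m p * ex (θS p + θZ (sS p)) := by
      rw [sS_sX, sS_sY, ← sX_sY, hθZ, hθS, ex_add]
      noncomm_ring
    have hne0 : E p * m p ≠ 0 := by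
      rw [← norm_ne_zero_iff, norm_mul, hn, hmn]
      norm_num
    rw [h1, ← mul_neg] at h2
    exact mul_left_cancel₀ hne0 h2
  have hAconst : ∀ p q, A p = A q := fun p q => const_of_ex hAc hA p q
  -- the double shift
  let θT : PP → ℝ := fun p => ψ p + θS p + θS (sS p)
  have hθTc : Continuous θT := by fun_prop
  have hθT : ∀ p, m (sS (sS p)) = m p * ex (θT p) := by
    intro p
    rw [hθS, hθS]
    have : E (sS p) * (E p * m p * ex (θS p)) * ex (θS (sS p))
        = (E (sS p) * E p * m p) * (ex (θS p) * ex (θS (sS p))) := by noncomm_ring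
    rw [this, hψ, ← ex_add, mul_assoc, ← ex_add]
    simp only [θT]
    rw [add_assoc]
  -- the constants `B`
  have key : ∀ (γ : PP → PP) (θ : PP → ℝ), Continuous γ → Continuous θ →
      (∀ p, γ (sX p) = sX (γ p)) → (∀ p, m (γ p) = m p * ex (θ p)) →
      ∀ p q, (θX p + θ (sX p) + θ p - θX (γ p)) = (θX q + θ (sX q) + θ q - θX (γ q)) := by
    intro γ θ hγ hθ hcomm hmγ p q
    have hc : Continuous fun p => θX p + θ (sX p) + θ p - θX (γ p) := by fun_prop
    have hval : ∀ p, ex (θX p + θ (sX p) + θ p - θX (γ p)) = 1 := by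
      intro p
      rw [show θX p + θ (sX p) + θ p - θX (γ p) = (θX p + θ (sX p)) - (-θ p + θX (γ p)) by ring]
      apply ex_sub_eq_one
      have h1 : m (γ (sX p)) = m p * qj * ex (θX p + θ (sX p)) := by
        rw [hmγ, hθX, ex_add]
        noncomm_ring
      have h2 : m (γ (sX p)) = m p * qj * ex (-θ p + θX (γ p)) := by
        rw [hcomm, hθX, hmγ, ex_add, mul_assoc (m p), ex_mul_qj]
        noncomm_ring
      have hne0 : m p * qj ≠ 0 := by
        rw [← norm_ne_zero_iff, norm_mul, norm_qj, hmn]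
        norm_num
      rw [h1] at h2
      exact mul_left_cancel₀ hne0 h2
    exact const_of_ex hc hval p q
  have hBZ := key (fun p => sX (sY p)) θZ (by fun_prop) hθZc (fun p => rfl) hθZ
  have hBT := key (fun p => sS (sS p)) θT (by fun_prop) hθTc (fun p => by
    rw [sS_sX, sS_sY]) hθT
  -- the conclusion
  obtain ⟨p⟩ : Nonempty PP := ⟨0⟩
  have f2 : θZ (sS p) + θS (sS (sX (sY p))) - (θS (sS p) + θZ (sS (sS p))) = A p :=
    hAconst (sS p) p
  have f3 : θZ (sX p) + θS (sX (sY (sX p))) - (θS (sX p) + θZ (sS (sX p))) = A p :=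
    hAconst (sX p) p
  have f4 : θZ (sS (sX p)) + θS (sS (sX (sY (sX p)))) - (θS (sS (sX p)) + θZ (sS (sS (sX p))))
      = A p := hAconst (sS (sX p)) p
  have f1 : θZ p + θS (sX (sY p)) - (θS p + θZ (sS p)) = A p := rfl
  have g1 : θX p + θZ (sX p) + θZ p - θX (sX (sY p))
      = θX (sS (sS p)) + θZ (sS (sS (sX p))) + θZ (sS (sS p)) - θX (sS (sS (sX (sY p)))) :=
    hBZ p (sS (sS p))
  have g2 : θX p + (ψ (sX p) + θS (sX p) + θS (sS (sX p))) + (ψ p + θS p + θS (sS p))
      - θX (sS (sS p))
      = θX (sX (sY p)) + (ψ (sX (sY (sX p))) + θS (sX (sY (sX p))) + θS (sS (sX (sY (sX p)))))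
      + (ψ (sX (sY p)) + θS (sX (sY p)) + θS (sS (sX (sY p)))) - θX (sS (sS (sX (sY p)))) :=
    hBT p (sX (sY p))
  have e6 : ψ (sX (sY p)) = ψ p := hψZ p
  have e7 : ψ (sX (sY (sX p))) = ψ (sX p) := hψZ (sX p)
  have hA0 : A p = 0 := by linarith
  have := hA p
  rw [hA0, ex_zero] at this
  have := congrArg QuaternionAlgebra.re this
  simp at this
  norm_num at this

/-- The parity obstruction: no equivariant field of this kind exists. -/
theorem no_frame (e : PP → ℍ[ℝ]) (he : Continuous e)
    (hX : ∀ p, e (sX p) = -e p) (hY : ∀ p, e (sY p) = e p) (hT : ∀ p, e (sS (sS p)) = e p)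
    (hind : ∀ (p : PP) (a b : ℝ), a • e p + b • star (e (sS p)) = 0 → a = 0 ∧ b = 0) : False := by
  have hne : ∀ p, e p ≠ 0 := by
    intro p h0
    have := (hind p 1 0 (by rw [h0]; simp)).1
    norm_num at this
  have hn0 : ∀ p, ‖e p‖ ≠ 0 := fun p => norm_ne_zero_iff.2 (hne p)
  refine no_unit_frame (fun p => ‖e p‖⁻¹ • e p) ((he.norm.inv₀ hn0).smul he) ?_ ?_ ?_ ?_ ?_
  · intro p
    rw [norm_smul, norm_inv, norm_norm, inv_mul_cancel₀ (hn0 p)]
  · intro p
    simp only [hX, norm_neg, smul_neg]
  · intro p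
    simp only [hY]
  · intro p
    simp only [hT]
  · intro p h0
    simp only [smul_mul_assoc, mul_smul_comm, smul_smul, Quaternion.im_smul, smul_eq_zero] at h0
    rcases h0 with h0 | h0
    · rcases mul_eq_zero.1 h0 with h1 | h1
      · exact inv_ne_zero (hn0 _) h1
      · exact inv_ne_zero (hn0 _) h1
    · -- `e (S p) * e p` is real
      have h1 : e (sS p) * e p = ((e (sS p) * e p).re : ℍ[ℝ]) := by
        have := Quaternion.re_add_im (e (sS p) * e p)
        rw [h0, add_zero] at this
        exact this.symm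
      have h2 : (‖e (sS p)‖ * ‖e (sS p)‖) • e p
          = (e (sS p) * e p).re • star (e (sS p)) := by
        have h3 : star (e (sS p)) * (e (sS p) * e p)
            = star (e (sS p)) * ((e (sS p) * e p).re : ℍ[ℝ]) := by rw [← h1]
        rw [← mul_assoc, Quaternion.star_mul_self, Quaternion.normSq_eq_norm_mul_self,
          Quaternion.coe_mul_eq_smul, ← Quaternion.coe_commutes,
          Quaternion.coe_mul_eq_smul] at h3
        exact h3
      have h4 := (hind p (‖e (sS p)‖ * ‖e (sS p)‖) (-(e (sS p) * e p).re) (by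
        rw [h2, neg_smul, add_neg_cancel])).1
      exact mul_ne_zero (hn0 _) (hn0 _) h4

end Pool.Agent.H45.Skew
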