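import Mathlib

/-!
# Quaternionic lifts over three-space
-/

set_option autoImplicit false

namespace Pool.Agent.H45.Skew

open Quaternion

/-- the parameter space -/
abbrev PP : Type := ℝ × ℝ × ℝ

/-- unit complex numbers inside the quaternions -/
noncomputable def ex (t : ℝ) : ℍ[ℝ] := ⟨Real.cos t, Real.sin t, 0, 0⟩

/-- the quaternion `i` -/
def qi : ℍ[ℝ] := ⟨0, 1, 0, 0⟩

/-- the quaternion `j` -/
def qj : ℍ[ℝ] := ⟨0, 0, 1, 0⟩

lemma ex_add (s t : ℝ) : ex (s + t) = ex s * ex t := by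
  ext <;> simp [ex, Real.cos_add, Real.sin_add]
  ring

lemma ex_zero : ex 0 = 1 := by
  ext <;> simp [ex]

lemma ex_neg (t : ℝ) : ex (-t) = star (ex t) := by
  ext <;> simp [ex]

lemma norm_ex (t : ℝ) : ‖ex t‖ = 1 := by
  have h : ‖ex t‖ * ‖ex t‖ = 1 := by
    rw [← Quaternion.normSq_eq_norm_mul_self, Quaternion.normSq_def']
    simp [ex]
  nlinarith [norm_nonneg (ex t)]

lemma ex_ne_zero (t : ℝ) : ex t ≠ 0 := by
  intro h
  have := norm_ex t
  rw [h] at this
  simp at this

lemma ex_mul_qj (t : ℝ) : ex t * qj = qj * ex (-t) := by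
  ext <;> simp [ex, qj]

lemma ex_mul_qi (t : ℝ) : ex t * qi = qi * ex t := by
  ext <;> simp [ex, qi]

lemma qj_mul_qi : qj * qi = -(qi * qj) := by
  ext <;> simp [qi, qj]

lemma norm_qi : ‖qi‖ = 1 := by
  have h : ‖qi‖ * ‖qi‖ = 1 := by
    rw [← Quaternion.normSq_eq_norm_mul_self, Quaternion.normSq_def']
    simp [qi]
  nlinarith [norm_nonneg qi]

lemma norm_qj : ‖qj‖ = 1 := by
  have h : ‖qj‖ * ‖qj‖ = 1 := by
    rw [← Quaternion.normSq_eq_norm_mul_self, Quaternion.normSq_def']
    simp [qj]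
  nlinarith [norm_nonneg qj]

/-- Quaternions commuting with `i`. -/
lemma commute_qi {q : ℍ[ℝ]} (h : qi * q = q * qi) : q.imJ = 0 ∧ q.imK = 0 := by
  have h1 := congrArg QuaternionAlgebra.imJ h
  have h2 := congrArg QuaternionAlgebra.imK h
  simp [qi] at h1 h2
  constructor <;> linarith

lemma star_mul_self_of_norm {q : ℍ[ℝ]} (h : ‖q‖ = 1) : star q * q = 1 := by
  rw [Quaternion.star_mul_self, Quaternion.normSq_eq_norm_mul_self, h]
  simp

lemma self_mul_star_of_norm {q : ℍ[ℝ]} (h : ‖q‖ = 1) : q * star q = 1 := by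
  rw [Quaternion.self_mul_star, Quaternion.normSq_eq_norm_mul_self, h]
  simp

/-- Two continuous unit lifts differ by a continuous phase. -/
lemma exists_phase {m₁ m₂ v : PP → ℍ[ℝ]} (h1 : Continuous m₁) (h2 : Continuous m₂)
    (n1 : ∀ p, ‖m₁ p‖ = 1) (n2 : ∀ p, ‖m₂ p‖ = 1)
    (e1 : ∀ p, v p * m₁ p = m₁ p * qi) (e2 : ∀ p, v p * m₂ p = m₂ p * qi) :
    ∃ θ : PP → ℝ, Continuous θ ∧ ∀ p, m₂ p = m₁ p * ex (θ p) := by
  have hc : Continuous fun p => star (m₁ p) * m₂ p := by fun_prop
  have hcomm : ∀ p, qi * (star (m₁ p) * m₂ p) = (star (m₁ p) * m₂ p) * qi := by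
    intro p
    have ha : star (m₁ p) * v p = qi * star (m₁ p) := by
      have h3 : star (m₁ p) * (v p * m₁ p) * star (m₁ p)
          = star (m₁ p) * (m₁ p * qi) * star (m₁ p) := by rw [e1]
      rw [← mul_assoc, ← mul_assoc, star_mul_self_of_norm (n1 p), one_mul, mul_assoc,
        self_mul_star_of_norm (n1 p), mul_one] at h3
      exact h3
    rw [← mul_assoc, ← ha, mul_assoc, e2, mul_assoc]
  have hn : ∀ p, ‖star (m₁ p) * m₂ p‖ = 1 := by
    intro p
    rw [norm_mul, Quaternion.norm_star, n1, n2, one_mul]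
  set c : PP → ℍ[ℝ] := fun p => star (m₁ p) * m₂ p with hcdef
  have hJ : ∀ p, (c p).imJ = 0 := fun p => (commute_qi (hcomm p)).1
  have hK : ∀ p, (c p).imK = 0 := fun p => (commute_qi (hcomm p)).2
  have hsq : ∀ p, (c p).re ^ 2 + (c p).imI ^ 2 = 1 := by
    intro p
    have h4 : ‖c p‖ * ‖c p‖ = 1 := by rw [hn p, one_mul]
    rw [← Quaternion.normSq_eq_norm_mul_self, Quaternion.normSq_def', hJ p, hK p] at h4
    simpa using h4
  have hcirc : ∀ p, ‖(⟨(c p).re, (c p).imI⟩ : ℂ)‖ = 1 := by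
    intro p
    rw [Complex.norm_def, Complex.normSq_mk]
    rw [show (c p).re * (c p).re + (c p).imI * (c p).imI = 1 by nlinarith [hsq p]]
    exact Real.sqrt_one
  have hcc : Continuous fun p => (⟨(c p).re, (c p).imI⟩ : ℂ) := by
    have hre : Continuous fun p => (c p).re := Quaternion.continuous_re.comp hc
    have him : Continuous fun p => (c p).imI := Quaternion.continuous_imI.comp hc
    have : (fun p => (⟨(c p).re, (c p).imI⟩ : ℂ))
        = fun p => ((c p).re : ℂ) + ((c p).imI : ℂ) * Complex.I := by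
      funext p
      apply Complex.ext <;> simp
    rw [this]
    fun_prop
  let f : C(PP, Circle) := ⟨fun p => ⟨⟨(c p).re, (c p).imI⟩,
    mem_sphere_zero_iff_norm.2 (hcirc p)⟩, Continuous.subtype_mk hcc _⟩
  obtain ⟨e₀, he₀⟩ : ∃ e₀ : ℝ, Circle.exp e₀ = f (0 : PP) := by
    refine ⟨Circle.argEquiv (f 0), ?_⟩
    simp [Circle.argEquiv]
  obtain ⟨F, ⟨-, hF⟩, -⟩ :=
    Circle.isCoveringMap_exp.existsUnique_continuousMap_lifts f 0 e₀ he₀
  refine ⟨F, F.continuous, fun p => ?_⟩
  have hFp : (Circle.exp (F p) : ℂ) = ⟨(c p).re, (c p).imI⟩ := by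
    have := congrFun hF p
    simp only [Function.comp_apply] at this
    rw [this]
    rfl
  have hcp : c p = ex (F p) := by
    rw [Circle.coe_exp] at hFp
    have hr := congrArg Complex.re hFp
    have hi := congrArg Complex.im hFp
    rw [Complex.exp_ofReal_mul_I_re] at hr
    rw [Complex.exp_ofReal_mul_I_im] at hi
    ext
    · simp [ex, hr]
    · simp [ex, hi]
    · simp [ex, hJ p]
    · simp [ex, hK p]
  rw [← hcp]
  change m₂ p = m₁ p * (star (m₁ p) * m₂ p)
  rw [← mul_assoc, self_mul_star_of_norm (n1 p), one_mul]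

/-- A continuous real function whose phase is constant is constant. -/
lemma const_of_ex {f : PP → ℝ} (hf : Continuous f) {c : ℍ[ℝ]} (h : ∀ p, ex (f p) = c)
    (p q : PP) : f p = f q := by
  have key : ∀ p q, ¬ f p < f q := by
    intro p q hlt
    have hy1 : f p ≤ min (f q) (f p + Real.pi) := by
      apply le_min hlt.le
      linarith [Real.pi_pos]
    have hy2 : min (f q) (f p + Real.pi) ≤ f q := min_le_left _ _
    obtain ⟨r, hr⟩ := mem_range_of_exists_le_of_exists_ge hf ⟨p, hy1⟩ ⟨q, hy2⟩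
    have h1 : ex (f r) = ex (f p) := by rw [h, h]
    have hre := congrArg QuaternionAlgebra.re h1
    have him := congrArg QuaternionAlgebra.imI h1
    simp only [ex] at hre him
    have hcos : Real.cos (f r - f p) = 1 := by
      rw [Real.cos_sub, hre, him]
      nlinarith [Real.sin_sq_add_cos_sq (f p)]
    have hpos : 0 < f r - f p := by
      rw [hr]
      have : f p < min (f q) (f p + Real.pi) := lt_min hlt (by linarith [Real.pi_pos])
      linarith
    have hle : f r - f p ≤ Real.pi := by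
      rw [hr]
      have := min_le_right (f q) (f p + Real.pi)
      linarith
    have := Real.cos_lt_cos_of_nonneg_of_le_pi le_rfl hle hpos
    rw [hcos, Real.cos_zero] at this
    exact lt_irrefl _ this
  exact le_antisymm (not_lt.1 (key q p)) (not_lt.1 (key p q))

end Pool.Agent.H45.Skew
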