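import Pool.Agent.H45.Skew.NoFrame

/-!
# Stripping invariant fields
-/

set_option autoImplicit false

namespace Pool.Agent.H45.Skew

open Module

section

variable {E : Type} [NormedAddCommGroup E] [InnerProductSpace ℝ E]

/-- the reflection in the last coordinate -/
def lam (x : E × ℝ) : E × ℝ := (x.1, -x.2)

/-- the inner product of `E × ℝ` -/
def bb (x y : E × ℝ) : ℝ := inner ℝ x.1 y.1 + x.2 * y.2

lemma bb_comm (x y : E × ℝ) : bb x y = bb y x := by
  unfold bb
  rw [real_inner_comm, mul_comm]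

lemma bb_add (x y z : E × ℝ) : bb x (y + z) = bb x y + bb x z := by
  simp only [bb, Prod.fst_add, Prod.snd_add, inner_add_right]
  ring

lemma bb_smul (x y : E × ℝ) (c : ℝ) : bb x (c • y) = c * bb x y := by
  simp only [bb, Prod.smul_fst, Prod.smul_snd, inner_smul_right, smul_eq_mul]
  ring

lemma add_bb (x y z : E × ℝ) : bb (x + y) z = bb x z + bb y z := by
  rw [bb_comm, bb_add, bb_comm z x, bb_comm z y]

lemma smul_bb (x y : E × ℝ) (c : ℝ) : bb (c • x) y = c * bb x y := by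
  rw [bb_comm, bb_smul, bb_comm]

lemma bb_lam (x y : E × ℝ) : bb (lam x) (lam y) = bb x y := by
  simp only [bb, lam]
  ring

lemma bb_self_nonneg (x : E × ℝ) : 0 ≤ bb x x := by
  have h1 : (0 : ℝ) ≤ inner ℝ x.1 x.1 := real_inner_self_nonneg
  have h2 : 0 ≤ x.2 * x.2 := mul_self_nonneg _
  unfold bb
  linarith

lemma bb_self_eq_zero {x : E × ℝ} (h : bb x x = 0) : x = 0 := by
  have h1 : (0 : ℝ) ≤ inner ℝ x.1 x.1 := real_inner_self_nonneg
  have h2 : 0 ≤ x.2 * x.2 := mul_self_nonneg _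
  unfold bb at h
  have h3 : (inner ℝ x.1 x.1 : ℝ) = 0 := by linarith
  have h4 : x.2 * x.2 = 0 := by linarith
  apply Prod.ext
  · exact inner_self_eq_zero.1 h3
  · exact mul_self_eq_zero.1 h4

/-- the Gram determinant -/
def gram (h m : E × ℝ) : ℝ := bb h h * bb m m - bb h m * bb h m

lemma gram_ne_zero {h m : E × ℝ} (h0 : h ≠ 0) (hm : ∀ t : ℝ, t • h ≠ m) : gram h m ≠ 0 := by
  intro hg
  have hh : bb h h ≠ 0 := fun h1 => h0 (bb_self_eq_zero h1)
  have h2 : bb (bb h h • m + (-(bb h m)) • h) (bb h h • m + (-(bb h m)) • h) = 0 := by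
    simp only [bb_add, add_bb, bb_smul, smul_bb]
    rw [bb_comm m h]
    unfold gram at hg
    linear_combination bb h h * hg
  have h3 := bb_self_eq_zero h2
  apply hm (bb h m / bb h h)
  have h4 : bb h h • m = bb h m • h := by
    rw [neg_smul, ← sub_eq_add_neg, sub_eq_zero] at h3
    exact h3
  have h5 : (bb h h)⁻¹ • (bb h h • m) = (bb h h)⁻¹ • (bb h m • h) := by rw [h4]
  rw [smul_smul, inv_mul_cancel₀ hh, one_smul, smul_smul] at h5
  rw [div_eq_inv_mul]
  exact h5.symm

/-- the functional with equal values on `h` and `m` -/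
def ell (h m x : E × ℝ) : ℝ :=
  (bb m m - bb h m) * bb h x + (bb h h - bb h m) * bb m x

lemma ell_h (h m : E × ℝ) : ell h m h = gram h m := by
  unfold ell gram
  rw [bb_comm m h]
  ring

lemma ell_m (h m : E × ℝ) : ell h m m = gram h m := by
  unfold ell gram
  ring

lemma ell_add (h m x y : E × ℝ) : ell h m (x + y) = ell h m x + ell h m y := by
  unfold ell
  rw [bb_add, bb_add]
  ring

lemma ell_smul (h m x : E × ℝ) (c : ℝ) : ell h m (c • x) = c * ell h m x := by
  unfold ell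
  rw [bb_smul, bb_smul]
  ring

variable {E' : Type} [NormedAddCommGroup E'] [InnerProductSpace ℝ E']

/-- the unnormalised shear followed by the projection -/
noncomputable def qq (P : E →L[ℝ] E') (v : E) (y : ℝ) (x : E × ℝ) : E' × ℝ :=
  (P x.1, inner ℝ v v * x.2 - y * inner ℝ v x.1)

lemma qq_add (P : E →L[ℝ] E') (v : E) (y : ℝ) (x x' : E × ℝ) :
    qq P v y (x + x') = qq P v y x + qq P v y x' := by
  unfold qq
  apply Prod.ext
  · simp
  · simp only [Prod.snd_add, Prod.fst_add, inner_add_right]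
    ring

lemma qq_smul (P : E →L[ℝ] E') (v : E) (y : ℝ) (x : E × ℝ) (c : ℝ) :
    qq P v y (c • x) = c • qq P v y x := by
  unfold qq
  apply Prod.ext
  · simp
  · simp only [Prod.smul_snd, Prod.smul_fst, inner_smul_right, smul_eq_mul]
    ring

/-- the stripping map -/
noncomputable def kk (P : E →L[ℝ] E') (v : E) (y : ℝ) (h x : E × ℝ) : E' × ℝ :=
  gram h (v, y) • qq P v y x - ell h (v, y) x • qq P v y h

lemma kk_add (P : E →L[ℝ] E') (v : E) (y : ℝ) (h x x' : E × ℝ) :
    kk P v y h (x + x') = kk P v y h x + kk P v y h x' := by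
  unfold kk
  rw [qq_add, ell_add, smul_add, add_smul]
  abel

lemma kk_smul (P : E →L[ℝ] E') (v : E) (y : ℝ) (h x : E × ℝ) (c : ℝ) :
    kk P v y h (c • x) = c • kk P v y h x := by
  unfold kk
  rw [qq_smul, ell_smul, smul_sub, smul_smul, smul_smul, smul_smul]
  congr 2
  ring

/-- the stripping map as a linear map -/
noncomputable def kl (P : E →L[ℝ] E') (v : E) (y : ℝ) (h : E × ℝ) : E × ℝ →ₗ[ℝ] E' × ℝ where
  toFun := kk P v y h
  map_add' := kk_add P v y h
  map_smul' c x := kk_smul P v y h x c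

lemma kk_neg (P : E →L[ℝ] E') (v : E) (y : ℝ) (h x : E × ℝ) :
    kk P v y h (-x) = -kk P v y h x := map_neg (kl P v y h) x

lemma kk_lam (P : E →L[ℝ] E') (v : E) (y : ℝ) (h x : E × ℝ) :
    kk P v (-y) (lam h) (lam x) = lam (kk P v y h x) := by
  have h1 : ((v, -y) : E × ℝ) = lam (v, y) := rfl
  have h2 : ∀ z : E × ℝ, qq P v (-y) (lam z) = lam (qq P v y z) := by
    intro z
    unfold qq lam
    apply Prod.ext
    · rfl
    · simp only
      ring
  unfold kk
  rw [h1, h2, h2]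
  have h3 : gram (lam h) (lam ((v, y) : E × ℝ)) = gram h (v, y) := by
    unfold gram
    rw [bb_lam, bb_lam, bb_lam]
  have h4 : ell (lam h) (lam ((v, y) : E × ℝ)) (lam x) = ell h (v, y) x := by
    unfold ell
    rw [bb_lam, bb_lam, bb_lam, bb_lam, bb_lam]
  rw [h3, h4]
  unfold lam
  apply Prod.ext
  · simp
  · simp
    ring

lemma kk_ker (P : E →L[ℝ] E') {v : E} (hv : v ≠ 0) (hP : ∀ x, P x = 0 → ∃ s : ℝ, x = s • v)
    (y : ℝ) {h : E × ℝ} (h0 : h ≠ 0) (hm : ∀ t : ℝ, t • h ≠ ((v, y) : E × ℝ)) {x : E × ℝ}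
    (hx : kk P v y h x = 0) : ∃ s : ℝ, x = s • h := by
  have hvv : (inner ℝ v v : ℝ) ≠ 0 := fun h1 => hv (inner_self_eq_zero.1 h1)
  have hg := gram_ne_zero h0 hm
  have hqker : ∀ z : E × ℝ, qq P v y z = 0 → ∃ s : ℝ, z = s • ((v, y) : E × ℝ) := by
    intro z hz
    unfold qq at hz
    rw [Prod.mk_eq_zero] at hz
    obtain ⟨s, hs⟩ := hP _ hz.1
    refine ⟨s, ?_⟩
    have h2 := hz.2
    rw [hs, inner_smul_right] at h2
    apply Prod.ext
    · exact hs
    · simp only [Prod.smul_snd, smul_eq_mul]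
      have h3 : (inner ℝ v v : ℝ) * (z.2 - s * y) = 0 := by linear_combination h2
      rcases mul_eq_zero.1 h3 with h4 | h4
      · exact absurd h4 hvv
      · linarith
  have h1 : qq P v y (gram h (v, y) • x + (-(ell h (v, y) x)) • h) = 0 := by
    rw [qq_add, qq_smul, qq_smul, neg_smul, ← sub_eq_add_neg]
    exact hx
  obtain ⟨s, hs⟩ := hqker _ h1
  have h2 : ell h (v, y) (gram h (v, y) • x + (-(ell h (v, y) x)) • h)
      = ell h (v, y) (s • ((v, y) : E × ℝ)) := by rw [hs]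
  rw [ell_add, ell_smul, ell_smul, ell_smul, ell_h, ell_m] at h2
  have hs0 : s = 0 := by
    have : s * gram h (v, y) = 0 := by linarith
    rcases mul_eq_zero.1 this with h3 | h3
    · exact h3
    · exact absurd h3 hg
  rw [hs0, zero_smul, neg_smul, ← sub_eq_add_neg, sub_eq_zero] at hs
  refine ⟨(gram h (v, y))⁻¹ * ell h (v, y) x, ?_⟩
  rw [mul_smul, ← hs, smul_smul, inv_mul_cancel₀ hg, one_smul]

lemma kk_self (P : E →L[ℝ] E') {v : E} (y : ℝ) (h : E × ℝ) : kk P v y h h = 0 := by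
  unfold kk
  rw [ell_h, sub_self]

lemma contDiff_bb {n : WithTop ℕ∞} {f g : PP → E × ℝ} (hf : ContDiff ℝ n f)
    (hg : ContDiff ℝ n g) : ContDiff ℝ n fun p => bb (f p) (g p) := by
  unfold bb
  exact (hf.fst.inner ℝ hg.fst).add (hf.snd.mul hg.snd)

lemma contDiff_kk {n : WithTop ℕ∞} (P : E →L[ℝ] E') (v : E) {y : PP → ℝ} {h x : PP → E × ℝ}
    (hy : ContDiff ℝ n y) (hh : ContDiff ℝ n h) (hx : ContDiff ℝ n x) :
    ContDiff ℝ n fun p => kk P v (y p) (h p) (x p) := by
  have hm : ContDiff ℝ n fun p => ((v, y p) : E × ℝ) := contDiff_const.prodMk hy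
  have hq : ∀ z : PP → E × ℝ, ContDiff ℝ n z → ContDiff ℝ n fun p => qq P v (y p) (z p) := by
    intro z hz
    unfold qq
    exact (P.contDiff.comp hz.fst).prodMk
      ((contDiff_const.mul hz.snd).sub (hy.mul (contDiff_const.inner ℝ hz.fst)))
  unfold kk gram ell
  exact ((((contDiff_bb hh hh).mul (contDiff_bb hm hm)).sub
      ((contDiff_bb hh hm).mul (contDiff_bb hh hm))).smul (hq x hx)).sub
    (((((contDiff_bb hm hm).sub (contDiff_bb hh hm)).mul (contDiff_bb hh hx)).add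
      (((contDiff_bb hh hh).sub (contDiff_bb hh hm)).mul (contDiff_bb hm hx))).smul (hq h hh))

lemma continuous_kk (P : E →L[ℝ] E') (v : E) {y : PP → ℝ} {h x : PP → E × ℝ}
    (hy : Continuous y) (hh : Continuous h) (hx : Continuous x) :
    Continuous fun p => kk P v (y p) (h p) (x p) := by
  have h0 := contDiff_kk (n := 0) P v (contDiff_zero.2 hy) (contDiff_zero.2 hh)
    (contDiff_zero.2 hx)
  exact contDiff_zero.1 h0

end

/-- The data we strip. -/
structure Good (E : Type) [NormedAddCommGroup E] [InnerProductSpace ℝ E] (k : ℕ)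
    (h : Fin k → PP → E × ℝ) (e : PP → E × ℝ) : Prop where
  hC : ∀ i, ContDiff ℝ 1 (h i)
  eC : Continuous e
  hX : ∀ i p, h i (sX p) = h i p
  hY : ∀ i p, h i (sY p) = h i p
  hS : ∀ i p, h i (sS p) = lam (h i p)
  eX : ∀ p, e (sX p) = -e p
  eY : ∀ p, e (sY p) = e p
  eT : ∀ p, e (sS (sS p)) = e p
  ind : ∀ (p : PP) (c : Fin k → ℝ) (a b : ℝ),
    ∑ i, c i • h i p + a • e p + b • lam (e (sS p)) = 0 → (∀ i, c i = 0) ∧ a = 0 ∧ b = 0

/-- A constant direction with which a given field is never parallel. -/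
lemma exists_direction {E : Type} [NormedAddCommGroup E] [InnerProductSpace ℝ E]
    [FiniteDimensional ℝ E] (hE : 4 ≤ finrank ℝ E) {h : PP → E × ℝ} (hh : ContDiff ℝ 1 h) :
    ∃ (v : E) (a b : ℝ), v ≠ 0 ∧ ∀ (p : PP) (t : ℝ),
      t • h p ≠ ((v, a * Real.cos p.1 + b * Real.sin p.1) : E × ℝ) := by
  let Φ : PP × ℝ × ℝ → E × ℝ × ℝ := fun q =>
    (q.2.1 • (h q.1).1,
      q.2.1 * (h q.1).2 * Real.cos q.1.1 - q.2.2 * Real.sin q.1.1,
      q.2.1 * (h q.1).2 * Real.sin q.1.1 + q.2.2 * Real.cos q.1.1)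
  have hΦ : ContDiff ℝ 1 Φ := by
    have h1 : ContDiff ℝ 1 fun q : PP × ℝ × ℝ => h q.1 := hh.comp contDiff_fst
    have h2 : ContDiff ℝ 1 fun q : PP × ℝ × ℝ => q.2.1 := by fun_prop
    have h3 : ContDiff ℝ 1 fun q : PP × ℝ × ℝ => q.2.2 := by fun_prop
    have h4 : ContDiff ℝ 1 fun q : PP × ℝ × ℝ => Real.cos q.1.1 := by fun_prop
    have h5 : ContDiff ℝ 1 fun q : PP × ℝ × ℝ => Real.sin q.1.1 := by fun_prop
    exact (h2.smul h1.fst).prodMk
      ((((h2.mul h1.snd).mul h4).sub (h3.mul h5)).prodMk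
        (((h2.mul h1.snd).mul h5).add (h3.mul h4)))
  have hd : Dense (Set.range Φ)ᶜ := by
    apply hΦ.dense_compl_range_of_finrank_lt_finrank
    simp only [finrank_prod, finrank_self]
    omega
  have hnt : Nontrivial E := by
    apply Module.nontrivial_of_finrank_pos (R := ℝ)
    omega
  obtain ⟨v₀, hv₀⟩ := exists_ne (0 : E)
  have hU : IsOpen {q : E × ℝ × ℝ | q.1 ≠ 0} := by
    have : {q : E × ℝ × ℝ | q.1 ≠ 0} = Prod.fst ⁻¹' {x : E | x ≠ 0} := rfl
    rw [this]
    exact isOpen_ne.preimage continuous_fst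
  obtain ⟨⟨v, a, b⟩, hq1, hq2⟩ := hd.inter_open_nonempty _ hU ⟨(v₀, 0, 0), hv₀⟩
  refine ⟨v, a, b, hq1, fun p t ht => ?_⟩
  apply hq2
  refine ⟨(p, t, -a * Real.sin p.1 + b * Real.cos p.1), ?_⟩
  have e1 : t • (h p).1 = v := congrArg Prod.fst ht
  have e2 : t * (h p).2 = a * Real.cos p.1 + b * Real.sin p.1 := congrArg Prod.snd ht
  simp only [Φ]
  rw [e1, e2]
  have hcs := Real.sin_sq_add_cos_sq p.1
  refine Prod.ext rfl (Prod.ext ?_ ?_)
  · simp only
    linear_combination a * hcs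
  · simp only
    linear_combination b * hcs

/-- One stripping step. -/
lemma strip_step {E : Type} [NormedAddCommGroup E] [InnerProductSpace ℝ E]
    [FiniteDimensional ℝ E] {n k : ℕ} (hE : finrank ℝ E = n + 1) (hn : 3 ≤ n)
    {h : Fin (k + 1) → PP → E × ℝ} {e : PP → E × ℝ} (hg : Good E (k + 1) h e) :
    ∃ v : E, finrank ℝ (ℝ ∙ v)ᗮ = n ∧
      ∃ (h' : Fin k → PP → (ℝ ∙ v)ᗮ × ℝ) (e' : PP → (ℝ ∙ v)ᗮ × ℝ), Good (ℝ ∙ v)ᗮ k h' e' := by
  obtain ⟨v, a, b, hv, hpar⟩ := exists_direction (by omega) (hg.hC 0)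
  have : Fact (finrank ℝ E = n + 1) := ⟨hE⟩
  refine ⟨v, Submodule.finrank_orthogonal_span_singleton hv, ?_⟩
  let P : E →L[ℝ] (ℝ ∙ v)ᗮ := (ℝ ∙ v)ᗮ.orthogonalProjectionOnto
  have hP : ∀ x, P x = 0 → ∃ s : ℝ, x = s • v := by
    intro x hx
    rw [Submodule.orthogonalProjectionOnto_eq_zero_iff, Submodule.orthogonal_orthogonal,
      Submodule.mem_span_singleton] at hx
    obtain ⟨s, hs⟩ := hx
    exact ⟨s, hs.symm⟩
  let y : PP → ℝ := fun p => a * Real.cos p.1 + b * Real.sin p.1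
  have hyC : ContDiff ℝ 1 y := by fun_prop
  have hyX : ∀ p, y (sX p) = y p := fun p => rfl
  have hyY : ∀ p, y (sY p) = y p := fun p => rfl
  have hyS : ∀ p, y (sS p) = -y p := by
    intro p
    simp only [y, sS, Real.cos_add_pi, Real.sin_add_pi]
    ring
  let K : PP → E × ℝ → (ℝ ∙ v)ᗮ × ℝ := fun p x => kk P v (y p) (h 0 p) x
  have KX : ∀ p x, K (sX p) x = K p x := by
    intro p x
    simp only [K, hyX, hg.hX]
  have KY : ∀ p x, K (sY p) x = K p x := by
    intro p x
    simp only [K, hyY, hg.hY]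
  have KS : ∀ p x, K (sS p) (lam x) = lam (K p x) := by
    intro p x
    simp only [K, hyS, hg.hS]
    exact kk_lam _ _ _ _ _
  have lamlam : ∀ x : E × ℝ, lam (lam x) = x := by
    intro x
    simp [lam]
  have lamlam' : ∀ x : (ℝ ∙ v)ᗮ × ℝ, lam (lam x) = x := by
    intro x
    simp [lam]
  have KT : ∀ p x, K (sS (sS p)) x = K p x := by
    intro p x
    rw [← lamlam x, KS, KS, lamlam']
    rw [lamlam]
  refine ⟨fun i p => K p (h i.succ p), fun p => K p (e p), ?_⟩
  refine ⟨fun i => contDiff_kk P v hyC (hg.hC 0) (hg.hC i.succ),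
    continuous_kk P v hyC.continuous (hg.hC 0).continuous hg.eC, ?_, ?_, ?_, ?_, ?_, ?_, ?_⟩
  · intro i p
    simp only [KX, hg.hX]
  · intro i p
    simp only [KY, hg.hY]
  · intro i p
    simp only [hg.hS, KS]
  · intro p
    simp only [KX, hg.eX]
    exact kk_neg _ _ _ _ _
  · intro p
    simp only [KY, hg.eY]
  · intro p
    simp only [KT, hg.eT]
  · intro p c a' b' hsum
    have h1 : lam (K (sS p) (e (sS p))) = K p (lam (e (sS p))) := by
      have := KS p (lam (e (sS p)))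
      rw [lamlam] at this
      rw [this, lamlam']
    have h2 : K p (∑ i : Fin k, c i • h i.succ p + a' • e p + b' • lam (e (sS p))) = 0 := by
      change kl P v (y p) (h 0 p) _ = 0
      rw [map_add, map_add, map_sum, map_smul, map_smul]
      simp only [map_smul]
      rw [← hsum]
      congr 2
      exact h1.symm
    have hh0 : h 0 p ≠ 0 := by
      intro h0
      have := (hg.ind p (fun i => if i = 0 then 1 else 0) 0 0 (by simp [h0])).1 0
      simp at this
    obtain ⟨s, hs⟩ := kk_ker P hv hP (y p) hh0 (hpar p) h2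
    have h3 := hg.ind p (Fin.cons (-s) c) a' b' (by
      rw [Fin.sum_univ_succ]
      simp only [Fin.cons_zero, Fin.cons_succ]
      rw [neg_smul, ← hs]
      abel)
    refine ⟨fun i => ?_, h3.2⟩
    have := h3.1 i.succ
    simpa using this

/-- Nothing is left after stripping down to three dimensions. -/
lemma no_good_zero {E : Type} [NormedAddCommGroup E] [InnerProductSpace ℝ E]
    [FiniteDimensional ℝ E] (hE : finrank ℝ E = 3)
    {h : Fin 0 → PP → E × ℝ} {e : PP → E × ℝ} (hg : Good E 0 h e) : False := by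
  let b := finBasisOfFinrankEq ℝ E hE
  let f : E →ₗ[ℝ] (Fin 3 → ℝ) := b.equivFun.toLinearMap
  have hfc : Continuous f := LinearMap.continuous_of_finiteDimensional f
  have hf0 : ∀ x, f x = 0 → x = 0 := by
    intro x hx
    exact b.equivFun.injective (by rw [map_zero]; exact hx)
  let φ : E × ℝ → Quaternion ℝ := fun x => ⟨x.2, f x.1 0, f x.1 1, f x.1 2⟩
  have hφ0 : ∀ x, φ x = 0 → x = 0 := by
    intro x hx
    have h1 : (φ x).re = (0 : Quaternion ℝ).re := by rw [hx]
    have h2 : (φ x).imI = (0 : Quaternion ℝ).imI := by rw [hx]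
    have h3 : (φ x).imJ = (0 : Quaternion ℝ).imJ := by rw [hx]
    have h4 : (φ x).imK = (0 : Quaternion ℝ).imK := by rw [hx]
    rw [Quaternion.re_zero] at h1
    rw [Quaternion.imI_zero] at h2
    rw [Quaternion.imJ_zero] at h3
    rw [Quaternion.imK_zero] at h4
    apply Prod.ext
    · apply hf0
      funext i
      fin_cases i
      · simpa using h2
      · simpa using h3
      · simpa using h4
    · simpa using h1
  have hφadd : ∀ x y, φ (x + y) = φ x + φ y := by
    intro x y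
    ext <;> simp [φ]
  have hφsmul : ∀ (c : ℝ) x, φ (c • x) = c • φ x := by
    intro c x
    ext <;> simp [φ]
  have hφneg : ∀ x, φ (-x) = -φ x := by
    intro x
    ext <;> simp [φ]
  have hφlam : ∀ x, φ (lam x) = -star (φ x) := by
    intro x
    ext <;> simp [φ, lam]
  have hφc : Continuous φ := by
    let φl : E × ℝ →ₗ[ℝ] Quaternion ℝ :=
      { toFun := φ, map_add' := hφadd, map_smul' := hφsmul }
    exact LinearMap.continuous_of_finiteDimensional φl
  refine no_frame (fun p => φ (e p)) (hφc.comp hg.eC) ?_ ?_ ?_ ?_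
  · intro p
    simp only [hg.eX, hφneg]
  · intro p
    simp only [hg.eY]
  · intro p
    simp only [hg.eT]
  · intro p a b' hab
    have h1 : φ (a • e p + (-b') • lam (e (sS p))) = 0 := by
      rw [hφadd, hφsmul, hφsmul, hφlam, ← hab]
      simp
    have h2 := hg.ind p (fun _ => 0) a (-b') (by
      rw [Finset.univ_eq_empty, Finset.sum_empty, zero_add]
      exact hφ0 _ h1)
    exact ⟨h2.2.1, by linarith [h2.2.2]⟩

/-- No stripping data in dimension `k + 3` with `k` invariant fields. -/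
theorem no_good (k : ℕ) : ∀ (E : Type) [NormedAddCommGroup E] [InnerProductSpace ℝ E]
    [FiniteDimensional ℝ E], finrank ℝ E = k + 3 →
    ∀ (h : Fin k → PP → E × ℝ) (e : PP → E × ℝ), ¬ Good E k h e := by
  induction k with
  | zero =>
    intro E _ _ _ hE h e hg
    exact no_good_zero (by omega) hg
  | succ k ih =>
    intro E _ _ _ hE h e hg
    obtain ⟨v, hv, h', e', hg'⟩ := strip_step (n := k + 3) (by omega) (by omega) hg
    exact ih _ hv h' e' hg'

end Pool.Agent.H45.Skew
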